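import Pool.Agent.R485.MF.Stm

/-! # Project MF: more statements -/

set_option autoImplicit false

open Filter Topology MeasureTheory Set
open scoped ENNReal

namespace Pool.Agent.R485.MF

/-- `p` is a limit point of the vectors of digit frequencies of `⌊x c_n⌋` in base `b` -/
def LimitPt (b : ℕ) (c : ℕ → ℝ) (x : ℝ) (p : Fin b → ℝ) : Prop :=
  ∀ ε : ℝ, 0 < ε → ∃ᶠ n in atTop, ∀ d : Fin b, |fr b ⌊x * c n⌋₊ d - p d| < ε

/-- MF-ENT: the entropy is between `0` and `1` and is below a constant `< 1` away from the uniform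
vector -/
def S_ent : Prop := ∀ (b : ℕ), 2 ≤ b →
  (∀ p : Fin b → ℝ, IsProb p → 0 ≤ ent p ∧ ent p ≤ 1) ∧
  (∀ ε : ℝ, 0 < ε → ∃ t : ℝ, 0 ≤ t ∧ t < 1 ∧ ∀ p : Fin b → ℝ, IsProb p →
    (∃ d, ε ≤ |p d - 1 / b|) → ent p ≤ t)

/-- MF-PROB: the vectors of digit frequencies are probability vectors, and so are their limit
points -/
def S_prob : Prop := ∀ (b : ℕ), 2 ≤ b →
  (∀ m : ℕ, 0 < m → IsProb (fun d : Fin b => fr b m d)) ∧
  (∀ c : ℕ → ℝ, Tendsto c atTop atTop → ∀ x : ℝ, 0 < x → ∀ p : Fin b → ℝ, LimitPt b c x p →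
    IsProb p) ∧
  (∀ c : ℕ → ℝ, Tendsto c atTop atTop → ∀ x : ℝ, 0 < x → ∀ ε : ℝ, 0 < ε →
    (¬ ∀ᶠ n in atTop, ∀ d : Fin b, |fr b ⌊x * c n⌋₊ d - 1 / b| < ε) →
      ∃ p : Fin b → ℝ, (∃ d, ε ≤ |p d - 1 / b|) ∧ LimitPt b c x p)

/-- MF-GEN: for generic `x` all probability vectors are limit points -/
def S_gen : Prop := S_comb → ∀ c : ℕ → ℕ → ℝ, (∀ i n, 0 < c i n) →
  (∀ i, Tendsto (c i) atTop atTop) →
  ∀ᶠ x in residual ℝ, 0 < x → ∀ i : ℕ, ∀ b : ℕ, 2 ≤ b → ∀ p : Fin b → ℝ, IsProb p →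
    LimitPt b (c i) x p

end Pool.Agent.R485.MF
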