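import Pool.Agent.R485.MF.Ful
import Pool.Agent.R485.MF.Game
import Pool.Agent.R485.MF.Stm2

/-! # Project MF: lower bound for the dimension (countable families) and upper bound (closed sets) -/

set_option autoImplicit false

open Filter Topology MeasureTheory Set
open Pool.Agent.R331.MT
open scoped ENNReal NNReal

namespace Pool.Agent.R485.MF

/-- the lower bound, for countably many bases, sequences and vectors at once -/
theorem lower (hcomb : S_comb) (b : ℕ → ℕ) (hb : ∀ i, 2 ≤ b i) (p : ∀ i, Fin (b i) → ℝ)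
    (hp : ∀ i, IsProb (p i)) (c : ℕ → ℕ → ℝ) (hc0 : ∀ i n, 0 < c i n)
    (hc : ∀ i, Tendsto (c i) atTop atTop) (u w : ℝ) (hu : 0 ≤ u) (huw : u < w) (t : ℝ)
    (ht0 : 0 < t) (ht1 : t ≤ 1) (ht : ∀ i, t ≤ ent (p i)) :
    ENNReal.ofReal t ≤ dimH {x : ℝ | x ∈ Ioo u w ∧ ∀ i, LimitPt (b i) (c i) x (p i)} := by
  set h : ℝ := (w - u) / 3 with hh
  have hh0 : 0 < h := by rw [hh]; linarith
  have hu' : 0 < u + h := by linarith
  set U : ℕ → Set ℝ := fun n => US (b (Nat.unpair n).1) (p (Nat.unpair n).1) (c (Nat.unpair n).1)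
    (u + h) h (1 / (((Nat.unpair (Nat.unpair n).2).1 : ℝ) + 1)) (Nat.unpair (Nat.unpair n).2).2
    with hU
  have key := dim_full ht0 ht1 U (fun n => US_open _ _ _ _ _ _ _) (by
    intro s hs hst n
    exact full_US hcomb (hb _) (hp _) (hc0 _) (hc _) hu' hh0 hs (by linarith)
      (hst.trans_le (ht _)) (by positivity) _)
  refine key.trans ?_
  have hlip : LipschitzWith (Real.toNNReal (1 / h)) (fun x : ℝ => (x - (u + h)) / h) := by
    apply LipschitzWith.of_dist_le_mul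
    intro x y
    rw [Real.coe_toNNReal _ (by positivity), Real.dist_eq, Real.dist_eq]
    have e : (x - (u + h)) / h - (y - (u + h)) / h = (1 / h) * (x - y) := by
      field_simp
      ring
    rw [e, abs_mul, abs_of_pos (show 0 < 1 / h by positivity)]
  refine le_trans (dimH_mono ?_) (hlip.dimH_image_le _)
  rintro y ⟨hy, hyU⟩
  refine ⟨u + h + h * y, ⟨⟨?_, ?_⟩, ?_⟩, ?_⟩
  · nlinarith [hy.1]
  · have : h * y ≤ h := by nlinarith [hy.2]
    rw [hh] at this ⊢
    linarith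
  · intro i ε hε
    rw [frequently_atTop]
    intro N
    obtain ⟨k, hk⟩ := exists_nat_one_div_lt hε
    have h1 := hyU (Nat.pair i (Nat.pair k N))
    simp only [hU] at h1
    rw [Nat.unpair_pair] at h1
    simp only [Nat.unpair_pair] at h1
    obtain ⟨n, hn, m, ⟨h2, h3⟩, h4⟩ := h1
    refine ⟨n, hn, fun d => ?_⟩
    have h5 : ⌊(u + h + h * y) * c i n⌋₊ = m := by
      rw [Nat.floor_eq_iff ((Nat.cast_nonneg m).trans h2.le)]
      exact ⟨h2.le, h3⟩
    rw [h5]
    exact (h4 d).trans hk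
  · show (u + h + h * y - (u + h)) / h = y
    field_simp
    ring

lemma tends {c : ℕ → ℝ} (hc0 : ∀ n, 0 < c n)
    (hc : ∀ t : ℝ, 0 < t → Summable fun n => (c n) ^ (-t)) : Tendsto c atTop atTop := by
  have h1 := (hc 1 one_pos).tendsto_atTop_zero
  have h2 : Tendsto (fun n => (c n)⁻¹) atTop (𝓝[>] 0) := by
    refine tendsto_nhdsWithin_iff.2 ⟨?_, Eventually.of_forall fun n => inv_pos.2 (hc0 n)⟩
    refine h1.congr fun n => ?_
    rw [Real.rpow_neg_one]
  have h3 := tendsto_inv_nhdsGT_zero.comp h2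
  refine h3.congr fun n => ?_
  simp

lemma closed_prob (b : ℕ) : IsClosed {p : Fin b → ℝ | IsProb p} := by
  have e : {p : Fin b → ℝ | IsProb p} = (⋂ d, {p : Fin b → ℝ | 0 ≤ p d}) ∩
      {p : Fin b → ℝ | ∑ d, p d = 1} := by
    ext p
    simp only [IsProb, mem_ofPred_eq, mem_inter_iff, mem_iInter]
  rw [e]
  refine (isClosed_iInter fun d => isClosed_le continuous_const (continuous_apply d)).inter ?_
  exact isClosed_eq (by fun_prop) continuous_const

lemma compact_prob (b : ℕ) : IsCompact {p : Fin b → ℝ | IsProb p} := by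
  have h1 : IsCompact (Icc (0 : Fin b → ℝ) 1) := isCompact_Icc
  refine h1.of_isClosed_subset (closed_prob b) ?_
  intro p hp
  refine ⟨fun d => hp.1 d, fun d => ?_⟩
  have h2 := Finset.single_le_sum (fun i _ => hp.1 i) (Finset.mem_univ d)
  rw [hp.2] at h2
  exact h2

/-- the upper bound -/
theorem upper (hup : S_up) (hdim : S_dim) (hprob : S_prob) (hent : S_ent) {b : ℕ} (hb : 2 ≤ b)
    {c : ℕ → ℝ} (hc0 : ∀ n, 0 < c n) (hc : ∀ t : ℝ, 0 < t → Summable fun n => (c n) ^ (-t))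
    (K : Set (Fin b → ℝ)) (hK : IsClosed K) :
    dimH {x : ℝ | 0 < x ∧ ∃ p ∈ K, LimitPt b c x p} ≤
      ⨆ p ∈ {p : Fin b → ℝ | p ∈ K ∧ IsProb p}, ENNReal.ofReal (ent p) := by
  have hct := tends hc0 hc
  set S : ℝ≥0∞ := ⨆ p ∈ {p : Fin b → ℝ | p ∈ K ∧ IsProb p}, ENNReal.ofReal (ent p) with hS
  apply ENNReal.le_of_forall_pos_le_add
  intro η hη _
  have hη' : (0 : ℝ) < η := by exact_mod_cast hη
  have hcomp : IsCompact {p : Fin b → ℝ | p ∈ K ∧ IsProb p} := (compact_prob b).inter_left hK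
  have hch : ∀ p : Fin b → ℝ, ∃ ε : ℝ, 0 < ε ∧ (IsProb p →
      dimH {x : ℝ | 0 < x ∧ ∃ᶠ n in atTop, ⌊x * c n⌋₊ ∈
        {m : ℕ | 0 < m ∧ ∀ d : Fin b, |fr b m d - p d| ≤ ε}} ≤ ENNReal.ofReal (ent p + η)) := by
    intro p
    by_cases hp : IsProb p
    · obtain ⟨ε, hε, C, hC, h⟩ := hup b hb p hp η hη'
      refine ⟨ε, hε, fun _ => ?_⟩
      exact hdim _ (ent p + η) C (by linarith [((hent b hb).1 p hp).1]) hC h c hc0 hc
    · exact ⟨1, one_pos, fun h => absurd h hp⟩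
  choose ε hε hdimp using hch
  obtain ⟨T, hT1, hT2⟩ := hcomp.elim_nhds_subcover (fun p => Metric.ball p (ε p / 2))
    (fun p _ => Metric.ball_mem_nhds _ (by linarith [hε p]))
  have hsub : {x : ℝ | 0 < x ∧ ∃ p ∈ K, LimitPt b c x p} ⊆
      ⋃ p ∈ (T : Set (Fin b → ℝ)), {x : ℝ | 0 < x ∧ ∃ᶠ n in atTop, ⌊x * c n⌋₊ ∈
        {m : ℕ | 0 < m ∧ ∀ d : Fin b, |fr b m d - p d| ≤ ε p}} := by
    rintro x ⟨hx, q, hqK, hq⟩
    have hqp := (hprob b hb).2.1 c hct x hx q hq
    have h1 := hT2 (show q ∈ {p : Fin b → ℝ | p ∈ K ∧ IsProb p} from ⟨hqK, hqp⟩)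
    simp only [mem_iUnion] at h1
    obtain ⟨p, hpT, hqb⟩ := h1
    refine mem_iUnion₂.2 ⟨p, hpT, hx, ?_⟩
    have hdist : ∀ d, |q d - p d| < ε p / 2 := by
      intro d
      have h2 := dist_le_pi_dist q p d
      rw [Real.dist_eq] at h2
      exact h2.trans_lt hqb
    have hpos : ∀ᶠ n in atTop, 0 < ⌊x * c n⌋₊ := by
      filter_upwards [hct.eventually_ge_atTop (1 / x)] with n hn
      rw [Nat.floor_pos]
      rw [div_le_iff₀ hx] at hn
      linarith
    refine ((hq (ε p / 2) (by linarith [hε p])).and_eventually hpos).mono ?_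
    rintro n ⟨h3, h4⟩
    refine ⟨h4, fun d => ?_⟩
    have h5 := h3 d
    have h6 := hdist d
    have h7 := abs_sub_le (fr b ⌊x * c n⌋₊ d) (q d) (p d)
    linarith
  refine (dimH_mono hsub).trans ?_
  rw [dimH_bUnion T.countable_toSet]
  refine iSup₂_le fun p hp => ?_
  have hpK := hT1 p hp
  refine (hdimp p hpK.2).trans ?_
  rw [ENNReal.ofReal_add ((hent b hb).1 p hpK.2).1 hη'.le, ENNReal.ofReal_coe_nnreal]
  gcongr
  exact le_iSup₂_of_le p hpK le_rfl

end Pool.Agent.R485.MF
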