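import Pool.Agent.R485.MF.Stm

/-!
Project MF (helper485, MP_b08cb4_nt), piece COMB by helper744: well distributed integers with given digit
frequencies.
-/

set_option autoImplicit false

open Filter Topology MeasureTheory Set

namespace Pool.Agent.R485.MF

namespace CombAux

lemma count_ofFn (t : ℕ) : ∀ (n : ℕ) (f : Fin n → ℕ),
    (List.ofFn f).count t = (Finset.univ.filter fun i => f i = t).card := by
  intro n
  induction n with
  | zero => intro f; simp
  | succ n ih =>
    intro f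
    rw [Finset.card_filter, Fin.sum_univ_succ, ← Finset.card_filter, ← ih (fun i => f i.succ), List.ofFn_succ,
      List.count_cons, add_comm]
    simp

lemma digits_append (b : ℕ) (hb : 1 < b) (m : ℕ) (hm : 0 < m) : ∀ L : List ℕ, (∀ x ∈ L, x < b) →
    Nat.digits b (Nat.ofDigits b L + b ^ L.length * m) = L ++ Nat.digits b m := by
  intro L
  induction L with
  | nil => intro _; simp
  | cons x L ih =>
    intro h
    have hx : x < b := h x (by simp)
    have hpos : 0 < b ^ L.length * m := Nat.mul_pos (pow_pos (by omega) _) hm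
    have e : Nat.ofDigits b (x :: L) + b ^ (x :: L).length * m =
        x + b * (Nat.ofDigits b L + b ^ L.length * m) := by
      rw [Nat.ofDigits_cons, List.length_cons, pow_succ]
      ring
    rw [e, Nat.digits_add b hb x _ hx (Or.inr (by omega)), ih fun y hy => h y (List.mem_cons_of_mem _ hy)]
    rfl

/-- the digits of a word -/
def dl {l b : ℕ} (w : Fin l → Fin b) : List ℕ := List.ofFn fun i => (w i : ℕ)

/-- the value of a word -/
def val {l b : ℕ} (w : Fin l → Fin b) : ℕ := Nat.ofDigits b (dl w)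

lemma dl_lt {l b : ℕ} (w : Fin l → Fin b) : ∀ x ∈ dl w, x < b := by
  intro x hx
  unfold dl at hx
  rw [List.mem_ofFn] at hx
  obtain ⟨i, rfl⟩ := hx
  exact (w i).2

lemma dl_len {l b : ℕ} (w : Fin l → Fin b) : (dl w).length = l := List.length_ofFn

lemma val_lt {l b : ℕ} (hb : 1 < b) (w : Fin l → Fin b) : val w < b ^ l := by
  have h := Nat.ofDigits_lt_base_pow_length hb (dl_lt w)
  rwa [dl_len] at h

lemma val_inj {l b : ℕ} (hb : 1 < b) (w w' : Fin l → Fin b) (h : val w = val w') : w = w' := by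
  have h1 := Nat.ofDigits_inj_of_len_eq hb (by rw [dl_len, dl_len]) (dl_lt w) (dl_lt w') h
  have h2 := List.ofFn_injective h1
  funext i
  exact Fin.ext (congrFun h2 i)

lemma digits_val {l b : ℕ} (hb : 1 < b) (w : Fin l → Fin b) (m : ℕ) (hm : 0 < m) :
    Nat.digits b (val w + b ^ l * m) = dl w ++ Nat.digits b m := by
  have h := digits_append b hb m hm (dl w) (dl_lt w)
  rwa [dl_len] at h

/-- the numbers with the first digits `d` and `k` blocks from `B` -/
def MM {l b : ℕ} (B : Finset (Fin l → Fin b)) (d : ℕ) : ℕ → Finset ℕ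
  | 0 => {d}
  | k + 1 => (B ×ˢ MM B d k).image fun z => val z.1 + b ^ l * z.2

lemma MM_ind {l b : ℕ} (B : Finset (Fin l → Fin b)) (d : ℕ) (Q : ℕ → ℕ → Prop) (h0 : Q 0 d)
    (hs : ∀ k, ∀ w ∈ B, ∀ m ∈ MM B d k, Q k m → Q (k + 1) (val w + b ^ l * m)) : ∀ k, ∀ m ∈ MM B d k, Q k m := by
  intro k
  induction k with
  | zero => intro m hm; rw [show MM B d 0 = {d} from rfl, Finset.mem_singleton] at hm; rw [hm]; exact h0
  | succ k ih =>
    intro m hm
    rw [show MM B d (k + 1) = (B ×ˢ MM B d k).image fun z => val z.1 + b ^ l * z.2 from rfl, Finset.mem_image] at hm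
    obtain ⟨z, hz, rfl⟩ := hm
    rw [Finset.mem_product] at hz
    exact hs k z.1 hz.1 z.2 hz.2 (ih z.2 hz.2)

lemma MM_inj {l b : ℕ} (hb : 1 < b) (w w' : Fin l → Fin b) (m m' : ℕ)
    (h : val w + b ^ l * m = val w' + b ^ l * m') : w = w' ∧ m = m' := by
  have h1 : (val w + b ^ l * m) / b ^ l = (val w' + b ^ l * m') / b ^ l := by rw [h]
  have h2 : (val w + b ^ l * m) % b ^ l = (val w' + b ^ l * m') % b ^ l := by rw [h]
  have hp : 0 < b ^ l := pow_pos (by omega) _
  rw [Nat.add_mul_div_left _ _ hp, Nat.add_mul_div_left _ _ hp, Nat.div_eq_of_lt (val_lt hb w),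
    Nat.div_eq_of_lt (val_lt hb w'), zero_add, zero_add] at h1
  rw [Nat.add_mul_mod_self_left, Nat.add_mul_mod_self_left, Nat.mod_eq_of_lt (val_lt hb w),
    Nat.mod_eq_of_lt (val_lt hb w')] at h2
  exact ⟨val_inj hb w w' h2, h1⟩

lemma MM_card {l b : ℕ} (hb : 1 < b) (B : Finset (Fin l → Fin b)) (d k : ℕ) : (MM B d k).card = B.card ^ k := by
  induction k with
  | zero => rfl
  | succ k ih =>
    rw [show MM B d (k + 1) = (B ×ˢ MM B d k).image fun z => val z.1 + b ^ l * z.2 from rfl,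
      Finset.card_image_of_injective, Finset.card_product, ih, pow_succ, mul_comm]
    rintro ⟨w, m⟩ ⟨w', m'⟩ h
    obtain ⟨h1, h2⟩ := MM_inj hb w w' m m' h
    rw [h1, h2]

/-- few elements with a given quotient -/
lemma MM_fib {l b : ℕ} (hb : 1 < b) (B : Finset (Fin l → Fin b)) (d : ℕ) : ∀ (j k c : ℕ), j ≤ k →
    ((MM B d k).filter fun m => m / (b ^ l) ^ j = c).card ≤ B.card ^ j := by
  have hp : 0 < b ^ l := pow_pos (by omega) _
  intro j
  induction j with
  | zero =>
    intro k c _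
    rw [pow_zero]
    refine Finset.card_le_one.2 fun x hx y hy => ?_
    rw [Finset.mem_filter, Nat.div_one] at hx hy
    rw [hx.2, hy.2]
  | succ j ih =>
    intro k c hjk
    obtain ⟨k, rfl⟩ : ∃ k', k = k' + 1 := ⟨k - 1, by omega⟩
    have hsub : ((MM B d (k + 1)).filter fun m => m / (b ^ l) ^ (j + 1) = c) ⊆
        (B ×ˢ ((MM B d k).filter fun m => m / (b ^ l) ^ j = c)).image fun z => val z.1 + b ^ l * z.2 := by
      intro m hm
      rw [Finset.mem_filter, show MM B d (k + 1) = (B ×ˢ MM B d k).image fun z => val z.1 + b ^ l * z.2 from rfl,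
        Finset.mem_image] at hm
      obtain ⟨⟨z, hz, rfl⟩, h2⟩ := hm
      rw [Finset.mem_product] at hz
      refine Finset.mem_image.2 ⟨z, Finset.mem_product.2 ⟨hz.1, Finset.mem_filter.2 ⟨hz.2, ?_⟩⟩, rfl⟩
      rw [pow_succ', ← Nat.div_div_eq_div_mul, Nat.add_mul_div_left _ _ hp, Nat.div_eq_of_lt (val_lt hb z.1),
        zero_add] at h2
      exact h2
    refine (Finset.card_le_card hsub).trans (Finset.card_image_le.trans ?_)
    rw [Finset.card_product, pow_succ, mul_comm]
    exact Nat.mul_le_mul_right _ (ih k c (by omega))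

/-- location, length and digit counts -/
lemma MM_prop {l b : ℕ} (hb : 1 < b) (B : Finset (Fin l → Fin b)) (p : Fin b → ℝ) (ε : ℝ)
    (hB : ∀ w ∈ B, ∀ d : Fin b, |((Finset.univ.filter fun i => w i = d).card : ℝ) - l * p d| ≤ ε * l)
    (d : ℕ) (hd : 0 < d) : ∀ k, ∀ m ∈ MM B d k, (d * (b ^ l) ^ k ≤ m ∧ m + 1 ≤ (d + 1) * (b ^ l) ^ k) ∧
      (Nat.digits b m).length = l * k + (Nat.digits b d).length ∧
      ∀ t : Fin b, |((Nat.digits b m).count (t : ℕ) : ℝ) - (l * k : ℕ) * p t| ≤
        ε * (l * k : ℕ) + (Nat.digits b d).length := by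
  have hp : 0 < b ^ l := pow_pos (by omega) _
  refine MM_ind B d _ ?_ ?_
  · refine ⟨by simp, by simp, fun t => ?_⟩
    simp only [mul_zero, Nat.cast_zero, zero_mul, sub_zero, zero_add]
    rw [Nat.abs_cast]
    exact_mod_cast List.count_le_length
  · intro k w hw m hm ⟨⟨h1, h1'⟩, h2, h3⟩
    have hm0 : 0 < m := lt_of_lt_of_le (Nat.mul_pos hd (pow_pos hp _)) h1
    have hv := val_lt hb w
    refine ⟨⟨?_, ?_⟩, ?_, fun t => ?_⟩
    · calc d * (b ^ l) ^ (k + 1) = b ^ l * (d * (b ^ l) ^ k) := by ring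
        _ ≤ b ^ l * m := Nat.mul_le_mul_left _ h1
        _ ≤ _ := Nat.le_add_left _ _
    · calc val w + b ^ l * m + 1 ≤ b ^ l * (m + 1) := by rw [mul_add, mul_one]; omega
        _ ≤ b ^ l * ((d + 1) * (b ^ l) ^ k) := Nat.mul_le_mul_left _ h1'
        _ = _ := by ring
    · rw [digits_val hb w m hm0, List.length_append, dl_len, h2]
      ring
    · rw [digits_val hb w m hm0, List.count_append]
      have h4 : (dl w).count (t : ℕ) = (Finset.univ.filter fun i => w i = t).card := by
        unfold dl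
        rw [count_ofFn]
        congr 1
        ext i
        simp [Fin.ext_iff]
      have h5 := abs_le.1 (hB w hw t)
      have h6 := abs_le.1 (h3 t)
      rw [h4]
      push_cast at h6 ⊢
      rw [abs_le]
      constructor
      · linarith [h5.1, h6.1]
      · linarith [h5.2, h6.2]

end CombAux

open CombAux

theorem t_comb (hlow : S_low) : S_comb := by
  intro b hb p hp s ε hs hse hε
  obtain ⟨l, hl, B, hBc, hB⟩ := hlow b hb p hp s (ε / 4) hse (by positivity)
  have hb1 : 1 < b := by omega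
  set q : ℕ := b ^ l with hqdef
  have hq2 : 2 ≤ q := by
    calc 2 ≤ b := hb
      _ = b ^ 1 := (pow_one b).symm
      _ ≤ b ^ l := Nat.pow_le_pow_right (by omega) hl
  have hqr : (2 : ℝ) ≤ (q : ℝ) := by exact_mod_cast hq2
  have hq0 : (0 : ℝ) < (q : ℝ) := by linarith
  have hq1 : (1 : ℝ) < (q : ℝ) := by linarith
  have hBq : (q : ℝ) ^ s ≤ B.card := by
    refine le_trans (le_of_eq ?_) hBc
    rw [hqdef, Nat.cast_pow, ← Real.rpow_natCast, ← Real.rpow_mul (by positivity)]
  have hB0 : (0 : ℝ) < B.card := lt_of_lt_of_le (Real.rpow_pos_of_pos hq0 s) hBq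
  have hC1 : (1 : ℝ) ≤ (4 * q : ℝ) ^ s := Real.one_le_rpow (by linarith) hs.le
  refine ⟨(q + 1) * (4 * q : ℝ) ^ s, by nlinarith, fun κ hκ => ?_⟩
  obtain ⟨k0, hk0⟩ := exists_nat_gt (8 * (4 * q * κ + 2) / ε)
  refine ⟨4 * (q : ℝ) ^ (k0 + 1), fun a Y hY ha haY => ?_⟩
  have hY0 : 0 < Y := lt_of_lt_of_le (by positivity) hY
  have hY4 : (q : ℝ) ^ (k0 + 1) ≤ Y / 4 := by linarith
  have hY1 : 1 ≤ Y / 4 := (one_le_pow₀ hq1.le).trans hY4
  obtain ⟨k, hk1, hk2⟩ := exists_nat_pow_near hY1 hq1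
  have hk : k0 < k := by
    have := (pow_lt_pow_iff_right₀ hq1).1 (lt_of_le_of_lt hY4 hk2)
    omega
  have hD0 : (0 : ℝ) < (q : ℝ) ^ k := by positivity
  set d : ℕ := ⌈a / (q : ℝ) ^ k⌉₊ with hd
  have hd0 : 0 < d := Nat.ceil_pos.2 (by positivity)
  have hd1 : a ≤ d * (q : ℝ) ^ k := by
    have := Nat.le_ceil (a / (q : ℝ) ^ k)
    rwa [div_le_iff₀ hD0] at this
  have hd2' : (d : ℝ) < a / (q : ℝ) ^ k + 1 := Nat.ceil_lt_add_one (by positivity)
  have hd2 : d * (q : ℝ) ^ k < a + (q : ℝ) ^ k := by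
    have := mul_lt_mul_of_pos_right hd2' hD0
    rwa [add_mul, div_mul_cancel₀ _ hD0.ne', one_mul] at this
  have hYq : Y < 4 * q * (q : ℝ) ^ k := by rw [pow_succ] at hk2; linarith
  have hd3 : (d : ℝ) < 4 * q * κ + 1 := by
    have h1 : a / (q : ℝ) ^ k ≤ 4 * q * κ := by
      rw [div_le_iff₀ hD0]
      nlinarith
    linarith
  set L : ℕ := (Nat.digits b d).length with hL
  have hLd : L ≤ d := (Nat.digits_length_le_iff hb1 d).2 (Nat.lt_pow_self hb1)
  have hLr : (L : ℝ) < 4 * q * κ + 2 := by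
    have : (L : ℝ) ≤ d := by exact_mod_cast hLd
    linarith
  have hLk : 8 * (L : ℝ) < ε * (l * k : ℕ) := by
    rw [div_lt_iff₀ hε] at hk0
    have h1 : (k0 : ℝ) ≤ (l * k : ℕ) := by
      have : k0 ≤ l * k := hk.le.trans (Nat.le_mul_of_pos_left _ (by omega))
      exact_mod_cast this
    nlinarith
  have hcard : ((MM B d k).card : ℝ) = (B.card : ℝ) ^ k := by rw [MM_card hb1]; push_cast; rfl
  have hp1 : ∀ t, p t ≤ 1 := fun t => by
    rw [← hp.2]
    exact Finset.single_le_sum (fun i _ => hp.1 i) (Finset.mem_univ t)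
  refine ⟨MM B d k, Finset.card_pos.1 (by rw [MM_card hb1]; exact pow_pos (by exact_mod_cast hB0) _), ?_, ?_⟩
  · intro m hm
    obtain ⟨⟨h1, h2⟩, h3, h4⟩ := MM_prop hb1 B p (ε / 4) hB d hd0 k m hm
    have h1r : (d : ℝ) * (q : ℝ) ^ k ≤ m := by exact_mod_cast h1
    have h2r : (m : ℝ) + 1 ≤ (d + 1) * (q : ℝ) ^ k := by exact_mod_cast h2
    refine ⟨hd1.trans h1r, by nlinarith, fun t => ?_⟩
    unfold fr
    have h5 := abs_le.1 (h4 t)
    rw [h3]
    set c : ℝ := ((Nat.digits b m).count (t : ℕ) : ℝ) with hc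
    have hL0 : (0 : ℝ) ≤ L := Nat.cast_nonneg _
    have hlk : (0 : ℝ) < (l * k : ℕ) := by
      by_contra hneg
      push Not at hneg
      nlinarith
    have hlen : (0 : ℝ) < ((l * k + L : ℕ) : ℝ) := by push_cast at hlk ⊢; linarith
    have h6 : c / ((l * k + L : ℕ) : ℝ) - p t = (c - ((l * k + L : ℕ) : ℝ) * p t) / ((l * k + L : ℕ) : ℝ) := by
      field_simp
    rw [h6, abs_div, abs_of_pos hlen, div_lt_iff₀ hlen, abs_lt]
    have h7 : (0 : ℝ) ≤ L * p t := mul_nonneg hL0 (hp.1 t)
    have h8 : L * p t ≤ L := mul_le_of_le_one_right hL0 (hp1 t)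
    have h9 : 0 ≤ ε * L := by positivity
    have h10 : ((l * k + L : ℕ) : ℝ) = (l * k : ℕ) + (L : ℝ) := by push_cast; ring
    rw [h10]
    constructor
    · nlinarith [h5.1]
    · nlinarith [h5.2]
  · intro z X hX hXY
    have hX0 : 0 < X := by linarith
    obtain ⟨j, hj1, hj2⟩ := exists_nat_pow_near hX hq1
    by_cases hjk : k ≤ j
    · have h1 : (q : ℝ) ^ k ≤ X := (pow_le_pow_right₀ hq1.le hjk).trans hj1
      have h2 : 1 ≤ (4 * q : ℝ) * (X / Y) := by
        rw [← mul_div_assoc, one_le_div hY0]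
        nlinarith
      have h3 : 1 ≤ (4 * q : ℝ) ^ s * (X / Y) ^ s := by
        rw [← Real.mul_rpow (by positivity) (by positivity)]
        exact Real.one_le_rpow h2 hs.le
      have h4 : 1 ≤ (q + 1) * (4 * q : ℝ) ^ s * (X / Y) ^ s := by
        rw [mul_assoc]
        nlinarith
      calc (((MM B d k).filter fun m : ℕ => z ≤ (m : ℝ) ∧ (m : ℝ) ≤ z + X).card : ℝ) ≤ (MM B d k).card := by
            exact_mod_cast Finset.card_filter_le _ _
        _ = 1 * (MM B d k).card := (one_mul _).symm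
        _ ≤ _ := mul_le_mul_of_nonneg_right h4 (Nat.cast_nonneg _)
    · push Not at hjk
      set F := (MM B d k).filter fun m : ℕ => z ≤ (m : ℝ) ∧ (m : ℝ) ≤ z + X with hF
      have h1 : F.card ≤ B.card ^ j * (q + 1) := by
        rcases F.eq_empty_or_nonempty with he | hne
        · rw [he]; simp
        · set m0 := F.min' hne with hm0
          have h2 : ∀ m ∈ F, m / q ^ j ∈ Finset.Icc (m0 / q ^ j) (m0 / q ^ j + q) := by
            intro m hm
            have h3 : m0 ≤ m := Finset.min'_le F m hm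
            have h4 := (Finset.mem_filter.1 (Finset.min'_mem F hne)).2.1
            have h5 := (Finset.mem_filter.1 hm).2.2
            rw [← hm0] at h4
            have h6 : (m : ℝ) < m0 + (q : ℝ) ^ (j + 1) := by linarith
            have h7 : m ≤ m0 + q ^ j * q := by
              have : m < m0 + q ^ (j + 1) := by exact_mod_cast h6
              rw [pow_succ] at this
              omega
            refine Finset.mem_Icc.2 ⟨Nat.div_le_div_right h3, ?_⟩
            have h8 := Nat.div_le_div_right (c := q ^ j) h7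
            rwa [Nat.add_mul_div_left _ _ (pow_pos (by omega) _)] at h8
          have h9 := Finset.card_le_mul_card_image_of_maps_to h2 (B.card ^ j) (fun c _ =>
            (Finset.card_le_card (Finset.filter_subset_filter _ (Finset.filter_subset _ _))).trans
              (MM_fib hb1 B d j k c hjk.le))
          rw [Nat.card_Icc] at h9
          refine h9.trans (le_of_eq ?_)
          congr 1
          omega
      have h2 : (F.card : ℝ) ≤ (B.card : ℝ) ^ j * (q + 1) := by exact_mod_cast h1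
      have h3 : Y / (4 * q * X) ≤ (q : ℝ) ^ (k - j) := by
        rw [div_le_iff₀ (by positivity)]
        have h4 : (q : ℝ) ^ k = (q : ℝ) ^ (k - j) * (q : ℝ) ^ j := by rw [← pow_add, Nat.sub_add_cancel hjk.le]
        have h5 : (q : ℝ) ^ (k - j) * (q : ℝ) ^ j ≤ (q : ℝ) ^ (k - j) * X :=
          mul_le_mul_of_nonneg_left hj1 (by positivity)
        nlinarith
      have h6 : (Y / (4 * q * X)) ^ s ≤ (B.card : ℝ) ^ (k - j) := by
        calc (Y / (4 * q * X)) ^ s ≤ ((q : ℝ) ^ (k - j)) ^ s :=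
              Real.rpow_le_rpow (by positivity) h3 hs.le
          _ = ((q : ℝ) ^ s) ^ (k - j) := by
            rw [← Real.rpow_natCast, ← Real.rpow_natCast, ← Real.rpow_mul hq0.le, ← Real.rpow_mul hq0.le, mul_comm]
          _ ≤ (B.card : ℝ) ^ (k - j) := pow_le_pow_left₀ (by positivity) hBq _
      have h7 : (4 * q : ℝ) ^ s * (X / Y) ^ s * (Y / (4 * q * X)) ^ s = 1 := by
        rw [← Real.mul_rpow (by positivity) (by positivity), ← Real.mul_rpow (by positivity) (by positivity)]
        have : (4 * q : ℝ) * (X / Y) * (Y / (4 * q * X)) = 1 := by field_simp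
        rw [this, Real.one_rpow]
      have h8 : (B.card : ℝ) ^ j ≤ (4 * q : ℝ) ^ s * (X / Y) ^ s * (B.card : ℝ) ^ k := by
        calc (B.card : ℝ) ^ j = (4 * q : ℝ) ^ s * (X / Y) ^ s * (Y / (4 * q * X)) ^ s * (B.card : ℝ) ^ j := by
              rw [h7, one_mul]
          _ ≤ (4 * q : ℝ) ^ s * (X / Y) ^ s * (B.card : ℝ) ^ (k - j) * (B.card : ℝ) ^ j := by
              refine mul_le_mul_of_nonneg_right (mul_le_mul_of_nonneg_left h6 (by positivity)) (by positivity)
          _ = (4 * q : ℝ) ^ s * (X / Y) ^ s * (B.card : ℝ) ^ k := by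
              rw [mul_assoc, ← pow_add, Nat.sub_add_cancel hjk.le]
      rw [hcard]
      calc (F.card : ℝ) ≤ (B.card : ℝ) ^ j * (q + 1) := h2
        _ ≤ (4 * q : ℝ) ^ s * (X / Y) ^ s * (B.card : ℝ) ^ k * (q + 1) :=
            mul_le_mul_of_nonneg_right h8 (by positivity)
        _ = _ := by ring

end Pool.Agent.R485.MF
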