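import Pool.Agent.R485.MF.Stm
import Pool.Agent.R479.DA.Lim

/-! # Project MF: the dimension of the set of `x` with `⌊x c_n⌋ ∈ P` infinitely often -/

set_option autoImplicit false

open Filter Topology MeasureTheory Set
open scoped ENNReal NNReal

namespace Pool.Agent.R485.MF

namespace Dim

/-- the fibre over `n` -/
def N (P : Set ℕ) (R : ℝ) (c : ℕ → ℝ) (n : ℕ) : Set ℕ := {m : ℕ | m ∈ P ∧ (m : ℝ) ≤ R * c n}

lemma finite_le (X : ℝ) (P : Set ℕ) : {m : ℕ | m ∈ P ∧ (m : ℝ) ≤ X}.Finite := by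
  refine (Set.finite_Iic ⌈X⌉₊).subset ?_
  rintro m ⟨_, hm⟩
  have : (m : ℝ) ≤ (⌈X⌉₊ : ℝ) := hm.trans (Nat.le_ceil X)
  exact_mod_cast this

lemma ncard_N (P : Set ℕ) (s C : ℝ) (hs : 0 ≤ s)
    (hcount : ∀ X : ℝ, 1 ≤ X → (({m : ℕ | m ∈ P ∧ (m : ℝ) ≤ X}.ncard : ℕ) : ℝ) ≤ C * X ^ s)
    (hC : 0 ≤ C) (R : ℝ) (hR : 0 < R) (c : ℕ → ℝ) (hc : ∀ n, 0 < c n) (n : ℕ) :
    ((N P R c n).ncard : ℝ) ≤ C * (2 ^ s * ((R * c n) ^ s + 1)) := by
  have hRc : 0 < R * c n := mul_pos hR (hc n)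
  have h1 := hcount (R * c n + 1) (by linarith)
  have h2 : (N P R c n).ncard ≤ {m : ℕ | m ∈ P ∧ (m : ℝ) ≤ R * c n + 1}.ncard := by
    apply Set.ncard_le_ncard _ (finite_le _ _)
    rintro m ⟨h3, h4⟩
    exact ⟨h3, by linarith⟩
  have h3 : ((N P R c n).ncard : ℝ) ≤ C * (R * c n + 1) ^ s :=
    le_trans (by exact_mod_cast h2) h1
  refine h3.trans (mul_le_mul_of_nonneg_left ?_ hC)
  have h4 : (2 * max (R * c n) 1) ^ s = 2 ^ s * (max (R * c n) 1) ^ s :=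
    Real.mul_rpow (by norm_num) (by positivity)
  calc (R * c n + 1) ^ s ≤ (2 * max (R * c n) 1) ^ s := by
        apply Real.rpow_le_rpow (by positivity) _ hs
        have := le_max_left (R * c n) 1
        have := le_max_right (R * c n) 1
        linarith
    _ = 2 ^ s * (max (R * c n) 1) ^ s := h4
    _ ≤ 2 ^ s * ((R * c n) ^ s + 1) := by
        apply mul_le_mul_of_nonneg_left _ (by positivity)
        have hp : 0 ≤ (R * c n) ^ s := by positivity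
        rcases max_cases (R * c n) 1 with ⟨h, _⟩ | ⟨h, _⟩
        · rw [h]; linarith
        · rw [h, Real.one_rpow]; linarith

lemma summable_main (P : Set ℕ) (s C : ℝ) (hs : 0 ≤ s) (hC : 0 ≤ C)
    (hcount : ∀ X : ℝ, 1 ≤ X → (({m : ℕ | m ∈ P ∧ (m : ℝ) ≤ X}.ncard : ℕ) : ℝ) ≤ C * X ^ s)
    (c : ℕ → ℝ) (hc : ∀ n, 0 < c n) (ht : ∀ t : ℝ, 0 < t → Summable fun n => (c n) ^ (-t))
    (R : ℝ) (hR : 0 < R) (ε : ℝ) (hε : 0 < ε) :
    Summable fun i : (Σ n : ℕ, ↥(N P R c n)) => ((c i.1)⁻¹) ^ (s + ε) := by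
  rw [summable_sigma_of_nonneg]
  · refine ⟨fun n => ?_, ?_⟩
    · have : Finite ↥(N P R c n) := (finite_le _ _).to_subtype
      exact Summable.of_finite
    · have e1 : ∀ n, ∑' _ : ↥(N P R c n), ((c n)⁻¹) ^ (s + ε) =
          ((N P R c n).ncard : ℝ) * ((c n)⁻¹) ^ (s + ε) := by
        intro n
        rw [tsum_const, nsmul_eq_mul, Nat.card_coe_set_eq]
      have hsum : Summable fun n => (C * 2 ^ s * R ^ s) * (c n) ^ (-ε) +
          (C * 2 ^ s) * (c n) ^ (-(s + ε)) :=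
        ((ht ε hε).mul_left _).add ((ht (s + ε) (by linarith)).mul_left _)
      refine Summable.of_nonneg_of_le (fun n => ?_) (fun n => ?_) hsum
      · rw [e1]
        have := hc n
        positivity
      · rw [e1]
        have hcn := hc n
        have h2 : ((c n)⁻¹) ^ (s + ε) = (c n) ^ (-(s + ε)) := by
          rw [Real.inv_rpow hcn.le, Real.rpow_neg hcn.le]
        rw [h2]
        have h3 := ncard_N P s C hs hcount hC R hR c hc n
        calc ((N P R c n).ncard : ℝ) * (c n) ^ (-(s + ε))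
            ≤ (C * (2 ^ s * ((R * c n) ^ s + 1))) * (c n) ^ (-(s + ε)) :=
              mul_le_mul_of_nonneg_right h3 (by positivity)
          _ = (C * 2 ^ s * R ^ s) * (c n) ^ (-ε) + (C * 2 ^ s) * (c n) ^ (-(s + ε)) := by
              rw [Real.mul_rpow hR.le hcn.le]
              have h4 : (c n) ^ (-ε) = (c n) ^ s * (c n) ^ (-(s + ε)) := by
                rw [← Real.rpow_add hcn]
                congr 1
                ring
              rw [h4]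
              ring
  · intro i
    have := hc i.1
    positivity

lemma dim_K (P : Set ℕ) (s C : ℝ) (hs : 0 ≤ s) (hC : 0 ≤ C)
    (hcount : ∀ X : ℝ, 1 ≤ X → (({m : ℕ | m ∈ P ∧ (m : ℝ) ≤ X}.ncard : ℕ) : ℝ) ≤ C * X ^ s)
    (c : ℕ → ℝ) (hc : ∀ n, 0 < c n) (ht : ∀ t : ℝ, 0 < t → Summable fun n => (c n) ^ (-t))
    (R : ℝ) (hR : 0 < R) :
    dimH {x : ℝ | (0 < x ∧ x ≤ R) ∧ ∃ᶠ n in atTop, ⌊x * c n⌋₊ ∈ P} ≤ ENNReal.ofReal s := by
  apply ENNReal.le_of_forall_pos_le_add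
  intro ε hε _
  have hε' : (0 : ℝ) < ε := by exact_mod_cast hε
  rw [← ENNReal.ofReal_coe_nnreal (p := ε), ← ENNReal.ofReal_add hs hε'.le]
  have h1 := Pool.Agent.R479.DA.dimH_limsup
    (ι := Σ n : ℕ, ↥(N P R c n))
    (fun i => {x : ℝ | (0 < x ∧ x ≤ R) ∧ ⌊x * c i.1⌋₊ = i.2.1})
    (fun i => (c i.1)⁻¹) (fun i => inv_pos.2 (hc i.1)) (fun i => by
      apply Metric.ediam_le
      intro x hx y hy
      rw [edist_dist]
      apply ENNReal.ofReal_le_ofReal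
      rw [Real.dist_eq]
      obtain ⟨⟨hx1, _⟩, hx2⟩ := hx
      obtain ⟨⟨hy1, _⟩, hy2⟩ := hy
      have hci := hc i.1
      have hx0 : 0 ≤ x * c i.1 := by positivity
      have hy0 : 0 ≤ y * c i.1 := by positivity
      have a1 := Nat.floor_le hx0
      have a2 := Nat.lt_floor_add_one (x * c i.1)
      have a3 := Nat.floor_le hy0
      have a4 := Nat.lt_floor_add_one (y * c i.1)
      rw [hx2] at a1 a2
      rw [hy2] at a3 a4
      rw [← one_div, le_div_iff₀ hci]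
      have e : |x - y| * c i.1 = |x * c i.1 - y * c i.1| := by
        rw [← sub_mul, abs_mul, abs_of_pos hci]
      rw [e, abs_le]
      constructor <;> linarith) (D := s + ε) (by linarith)
    (summable_main P s C hs hC hcount c hc ht R hR ε hε')
  refine (dimH_mono ?_).trans h1
  rintro x ⟨⟨hx1, hx2⟩, hx3⟩
  rw [Nat.frequently_atTop_iff_infinite] at hx3
  intro hfin
  apply hx3
  refine (hfin.image Sigma.fst).subset ?_
  intro n hn
  have hn' : ⌊x * c n⌋₊ ∈ P := hn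
  have hcn := hc n
  have hle : ((⌊x * c n⌋₊ : ℕ) : ℝ) ≤ R * c n :=
    (Nat.floor_le (by positivity)).trans (mul_le_mul_of_nonneg_right hx2 hcn.le)
  exact ⟨⟨n, ⟨⌊x * c n⌋₊, hn', hle⟩⟩, ⟨⟨hx1, hx2⟩, rfl⟩, rfl⟩

end Dim

theorem t_dim : S_dim := by
  intro P s C hs hC hcount c hc ht
  have hsub : {x : ℝ | 0 < x ∧ ∃ᶠ n in atTop, ⌊x * c n⌋₊ ∈ P} ⊆
      ⋃ K : ℕ, {x : ℝ | (0 < x ∧ x ≤ (K : ℝ) + 1) ∧ ∃ᶠ n in atTop, ⌊x * c n⌋₊ ∈ P} := by
    rintro x ⟨hx1, hx2⟩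
    obtain ⟨K, hK⟩ := exists_nat_ge x
    exact Set.mem_iUnion.2 ⟨K, ⟨hx1, by linarith⟩, hx2⟩
  refine (dimH_mono hsub).trans ?_
  rw [dimH_iUnion]
  refine iSup_le fun K => ?_
  exact Dim.dim_K P s C hs hC hcount c hc ht ((K : ℝ) + 1) (by positivity)

end Pool.Agent.R485.MF
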