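import Pool.Agent.R485.MF.Stm2

/-! # Project MF: MF-ENT, entropy bounds -/

set_option autoImplicit false

open Filter Topology MeasureTheory Set
open scoped ENNReal

namespace Pool.Agent.R485.MF

namespace EntAux

variable {b : ℕ}

lemma log_pos (hb : 2 ≤ b) : 0 < Real.log (b : ℝ) := by
  apply Real.log_pos
  exact_mod_cast (show 1 < b by omega)

lemma le_one (p : Fin b → ℝ) (hp : IsProb p) (d : Fin b) : p d ≤ 1 := by
  rw [← hp.2]
  exact Finset.single_le_sum (fun i _ => hp.1 i) (Finset.mem_univ d)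

lemma nonneg (hb : 2 ≤ b) (p : Fin b → ℝ) (hp : IsProb p) : 0 ≤ ent p := by
  unfold ent
  apply div_nonneg _ (log_pos hb).le
  exact Finset.sum_nonneg fun d _ => Real.negMulLog_nonneg (hp.1 d) (le_one p hp d)

lemma wsum (hb : 2 ≤ b) : ∑ _d : Fin b, (1 / (b : ℝ)) = 1 := by
  have hb0 : (b : ℝ) ≠ 0 := by
    have : b ≠ 0 := by omega
    exact_mod_cast this
  rw [Finset.sum_const, Finset.card_univ, Fintype.card_fin, nsmul_eq_mul]
  field_simp

lemma nml (hb : 2 ≤ b) : Real.negMulLog (1 / (b : ℝ)) = (1 / (b : ℝ)) * Real.log b := by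
  rw [Real.negMulLog, one_div, Real.log_inv]
  ring

lemma upper (hb : 2 ≤ b) (p : Fin b → ℝ) (hp : IsProb p) : ent p ≤ 1 := by
  have hb0 : (0 : ℝ) < b := by
    have : 0 < b := by omega
    exact_mod_cast this
  have h := Real.concaveOn_negMulLog.le_map_sum (t := Finset.univ) (w := fun _ : Fin b => 1 / (b : ℝ))
    (p := p) (fun i _ => by positivity) (wsum hb) (fun i _ => hp.1 i)
  simp only [smul_eq_mul] at h
  rw [← Finset.mul_sum, ← Finset.mul_sum, hp.2, mul_one, nml hb] at h
  have h2 := le_of_mul_le_mul_left h (by positivity)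
  unfold ent
  rw [div_le_one (log_pos hb)]
  exact h2

lemma strict (hb : 2 ≤ b) (p : Fin b → ℝ) (hp : IsProb p) (hd : ∃ d, p d ≠ 1 / b) : ent p < 1 := by
  have hb0 : (0 : ℝ) < b := by
    have : 0 < b := by omega
    exact_mod_cast this
  have hne : ∃ j ∈ (Finset.univ : Finset (Fin b)), ∃ k ∈ (Finset.univ : Finset (Fin b)),
      p j ≠ p k := by
    by_contra hcon
    push Not at hcon
    obtain ⟨d, hd⟩ := hd
    apply hd
    have h1 : ∑ i : Fin b, p i = b * p d := by
      rw [Finset.sum_congr rfl (fun i _ => hcon i (Finset.mem_univ i) d (Finset.mem_univ d)),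
        Finset.sum_const, Finset.card_univ, Fintype.card_fin, nsmul_eq_mul]
    rw [hp.2] at h1
    field_simp
    linarith
  have h := Real.strictConcaveOn_negMulLog.lt_map_sum (t := Finset.univ)
    (w := fun _ : Fin b => 1 / (b : ℝ))
    (p := p) (fun i _ => by positivity) (wsum hb) (fun i _ => hp.1 i) hne
  simp only [smul_eq_mul] at h
  rw [← Finset.mul_sum, ← Finset.mul_sum, hp.2, mul_one, nml hb] at h
  have h2 := lt_of_mul_lt_mul_left h (by positivity)
  unfold ent
  rw [div_lt_one (log_pos hb)]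
  exact h2

lemma cont : Continuous (fun p : Fin b → ℝ => ent p) := by
  unfold ent
  apply Continuous.div_const
  apply continuous_finsetSum
  intro d _
  exact Real.continuous_negMulLog.comp (continuous_apply d)

/-- the set of probability vectors away from the uniform one -/
def K (b : ℕ) (ε : ℝ) : Set (Fin b → ℝ) := {p | IsProb p ∧ ∃ d, ε ≤ |p d - 1 / b|}

lemma K_closed (ε : ℝ) : IsClosed (K b ε) := by
  have h1 : IsClosed {p : Fin b → ℝ | IsProb p} := by
    have : {p : Fin b → ℝ | IsProb p} = (⋂ d, {p : Fin b → ℝ | 0 ≤ p d}) ∩ {p | ∑ d, p d = 1} := by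
      ext p
      simp [IsProb]
    rw [this]
    apply IsClosed.inter
    · exact isClosed_iInter fun d => isClosed_le continuous_const (continuous_apply d)
    · exact isClosed_eq (continuous_finsetSum _ fun d _ => continuous_apply d) continuous_const
  have h2 : IsClosed {p : Fin b → ℝ | ∃ d, ε ≤ |p d - 1 / b|} := by
    have : {p : Fin b → ℝ | ∃ d, ε ≤ |p d - 1 / b|} = ⋃ d, {p : Fin b → ℝ | ε ≤ |p d - 1 / b|} := by
      ext p
      simp
    rw [this]
    apply isClosed_iUnion_of_finite
    intro d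
    exact isClosed_le continuous_const ((continuous_apply d).sub continuous_const).abs
  exact h1.inter h2

lemma K_compact (ε : ℝ) : IsCompact (K b ε) := by
  apply IsCompact.of_isClosed_subset (isCompact_univ_pi fun _ : Fin b => isCompact_Icc (a := (0:ℝ)) (b := 1))
    (K_closed ε)
  intro p hp d _
  exact ⟨hp.1.1 d, le_one p hp.1 d⟩

end EntAux

open EntAux in
/-- MF-ENT -/
theorem t_ent : S_ent := by
  intro b hb
  refine ⟨fun p hp => ⟨nonneg hb p hp, upper hb p hp⟩, ?_⟩
  intro ε hε
  rcases (K b ε).eq_empty_or_nonempty with he | hne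
  · refine ⟨0, le_rfl, one_pos, fun p hp hd => ?_⟩
    exfalso
    have : p ∈ K b ε := ⟨hp, hd⟩
    rw [he] at this
    exact this
  · obtain ⟨p0, hp0, hmax⟩ := (K_compact ε).exists_isMaxOn hne cont.continuousOn
    refine ⟨ent p0, nonneg hb p0 hp0.1, ?_, fun p hp hd => hmax (show p ∈ K b ε from ⟨hp, hd⟩)⟩
    apply strict hb p0 hp0.1
    obtain ⟨d, hd⟩ := hp0.2
    refine ⟨d, fun h => ?_⟩
    rw [h, sub_self, abs_zero] at hd
    linarith

end Pool.Agent.R485.MF
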