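import Pool.Agent.R485.MF.Bounds

/-! # Project MF: assembly -/

set_option autoImplicit false

open Filter Topology MeasureTheory Set
open scoped ENNReal NNReal

namespace Pool.Agent.R485.MF

/-- the dimension formula -/
theorem formula (hcomb : S_comb) (hup : S_up) (hdim : S_dim) (hprob : S_prob) (hent : S_ent)
    {b : ℕ} (hb : 2 ≤ b) {c : ℕ → ℝ} (hc0 : ∀ n, 0 < c n)
    (hc : ∀ t : ℝ, 0 < t → Summable fun n => (c n) ^ (-t))
    (K : Set (Fin b → ℝ)) (hK : IsClosed K) (u w : ℝ) (hu : 0 ≤ u) (huw : u < w) :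
    dimH {x : ℝ | x ∈ Ioo u w ∧ ∃ p ∈ K, LimitPt b c x p} =
      ⨆ p ∈ {p : Fin b → ℝ | p ∈ K ∧ IsProb p}, ENNReal.ofReal (ent p) := by
  apply le_antisymm
  · refine le_trans (dimH_mono ?_) (upper hup hdim hprob hent hb hc0 hc K hK)
    rintro x ⟨hx, h⟩
    exact ⟨lt_of_le_of_lt hu hx.1, h⟩
  · refine iSup₂_le fun p hp => ?_
    obtain ⟨hpK, hpp⟩ := hp
    obtain ⟨h0, h1⟩ := (hent b hb).1 p hpp
    rcases h0.eq_or_lt with h2 | h2
    · rw [← h2, ENNReal.ofReal_zero]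
      exact zero_le
    · refine (lower hcomb (fun _ => b) (fun _ => hb) (fun _ => p) (fun _ => hpp) (fun _ => c)
        (fun _ => hc0) (fun _ => tends hc0 hc) u w hu huw (ent p) h2 h1 (fun _ => le_rfl)).trans
        (dimH_mono ?_)
      rintro x ⟨hx, h⟩
      exact ⟨hx, p, hpK, h 0⟩

/-- the exceptional sets -/
theorem exceptional (hup : S_up) (hdim : S_dim) (hprob : S_prob) (hent : S_ent)
    {b : ℕ} (hb : 2 ≤ b) {c : ℕ → ℝ} (hc0 : ∀ n, 0 < c n)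
    (hc : ∀ t : ℝ, 0 < t → Summable fun n => (c n) ^ (-t)) (ε : ℝ) (hε : 0 < ε) :
    ∃ t : ℝ, t < 1 ∧ dimH {x : ℝ | 0 < x ∧ ¬ ∀ᶠ n in atTop, ∀ d : Fin b,
      |fr b ⌊x * c n⌋₊ d - 1 / b| < ε} ≤ ENNReal.ofReal t := by
  obtain ⟨t, ht0, ht1, ht⟩ := (hent b hb).2 ε hε
  refine ⟨t, ht1, ?_⟩
  have hcl : IsClosed {p : Fin b → ℝ | ∃ d, ε ≤ |p d - 1 / b|} := by
    have e : {p : Fin b → ℝ | ∃ d, ε ≤ |p d - 1 / b|} =
        ⋃ d, {p : Fin b → ℝ | ε ≤ |p d - 1 / b|} := by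
      ext p
      simp
    rw [e]
    refine isClosed_iUnion_of_finite fun d => ?_
    exact isClosed_le continuous_const (by fun_prop)
  refine le_trans (dimH_mono ?_) ((upper hup hdim hprob hent hb hc0 hc _ hcl).trans ?_)
  · rintro x ⟨hx, h⟩
    obtain ⟨p, h1, h2⟩ := (hprob b hb).2.2 c (tends hc0 hc) x hx ε hε h
    exact ⟨hx, p, h1, h2⟩
  · refine iSup₂_le fun p hp => ?_
    exact ENNReal.ofReal_le_ofReal (ht p hp.2 hp.1)

/-- almost all `x` -/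
theorem ae (hup : S_up) (hdim : S_dim) (hprob : S_prob) (hent : S_ent)
    {b : ℕ} (hb : 2 ≤ b) {c : ℕ → ℝ} (hc0 : ∀ n, 0 < c n)
    (hc : ∀ t : ℝ, 0 < t → Summable fun n => (c n) ^ (-t)) :
    ∀ᵐ x ∂(volume : Measure ℝ), 0 < x → ∀ d : Fin b,
      Tendsto (fun n => fr b ⌊x * c n⌋₊ d) atTop (𝓝 (1 / b)) := by
  have h1 : ∀ k : ℕ, ∀ᵐ x ∂(volume : Measure ℝ), ¬ (0 < x ∧ ¬ ∀ᶠ n in atTop, ∀ d : Fin b,
      |fr b ⌊x * c n⌋₊ d - 1 / b| < 1 / ((k : ℝ) + 1)) := by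
    intro k
    obtain ⟨t, ht1, ht⟩ := exceptional hup hdim hprob hent hb hc0 hc (1 / ((k : ℝ) + 1))
      (by positivity)
    have h2 : dimH {x : ℝ | 0 < x ∧ ¬ ∀ᶠ n in atTop, ∀ d : Fin b,
        |fr b ⌊x * c n⌋₊ d - 1 / b| < 1 / ((k : ℝ) + 1)} < ((1 : ℝ≥0) : ℝ≥0∞) := by
      refine lt_of_le_of_lt ht ?_
      rw [ENNReal.coe_one, ← ENNReal.ofReal_one]
      exact (ENNReal.ofReal_lt_ofReal_iff one_pos).2 ht1
    have h3 : (volume : Measure ℝ) ≪ Measure.hausdorffMeasure ((1 : ℝ≥0) : ℝ) := by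
      rw [NNReal.coe_one, hausdorffMeasure_real]
    have h4 := measure_zero_of_dimH_lt h3 h2
    rw [ae_iff]
    simpa only [not_not] using h4
  filter_upwards [ae_all_iff.2 h1] with x hx hx0 d
  rw [Metric.tendsto_atTop']
  intro ε hε
  obtain ⟨k, hk⟩ := exists_nat_one_div_lt hε
  have h2 := hx k
  push Not at h2
  have h3 := h2 hx0
  obtain ⟨N, hN⟩ := eventually_atTop.1 h3
  refine ⟨N, fun n hn => ?_⟩
  rw [Real.dist_eq]
  exact (hN n hn.le d).trans hk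

/-- geometric sequences -/
theorem geom (a : ℝ) (ha : 1 < a) : (∀ n : ℕ, 0 < a ^ n) ∧
    ∀ t : ℝ, 0 < t → Summable fun n : ℕ => (a ^ n) ^ (-t) := by
  have ha0 : 0 < a := by linarith
  refine ⟨fun n => by positivity, fun t ht => ?_⟩
  have h1 : Summable fun n : ℕ => (a ^ (-t)) ^ n := by
    apply summable_geometric_of_lt_one (by positivity)
    exact Real.rpow_lt_one_of_one_lt_of_neg ha (by linarith)
  refine h1.congr fun n => ?_
  rw [← Real.rpow_natCast, ← Real.rpow_mul ha0.le, ← Real.rpow_natCast, ← Real.rpow_mul ha0.le]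
  congr 1
  ring

end Pool.Agent.R485.MF
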