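import Pool.Agent.R485.MF.Fin

/-! # Project MF: digits after the point of `x θ ^ n` -/

set_option autoImplicit false

open Filter Topology MeasureTheory Set
open scoped ENNReal NNReal

namespace Pool.Agent.R485.MF

/-- the frequency of the digit `d` among the first `k` digits after the point of `y ≥ 0` -/
noncomputable def ffr (b k : ℕ) (y : ℝ) (d : ℕ) : ℝ :=
  (((Finset.Icc 1 k).filter fun i => ⌊y * (b : ℝ) ^ i⌋₊ % b = d).card : ℝ) / k

lemma digits_step {b : ℕ} (hb : 2 ≤ b) {y : ℝ} (hy : 1 ≤ y) (k : ℕ) :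
    Nat.digits b ⌊y * (b : ℝ) ^ (k + 1)⌋₊ =
      (⌊y * (b : ℝ) ^ (k + 1)⌋₊ % b) :: Nat.digits b ⌊y * (b : ℝ) ^ k⌋₊ := by
  have hb0 : (0 : ℝ) < b := by positivity
  have hb1 : (1 : ℝ) ≤ b := by exact_mod_cast (show 1 ≤ b by omega)
  have h1 : 0 < ⌊y * (b : ℝ) ^ (k + 1)⌋₊ := by
    rw [Nat.floor_pos]
    have : (1 : ℝ) ≤ (b : ℝ) ^ (k + 1) := one_le_pow₀ hb1
    nlinarith
  rw [Nat.digits_def' (by omega) h1]
  congr 2
  rw [← Nat.floor_div_natCast]
  congr 1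
  field_simp
  ring

lemma digits_all {b : ℕ} (hb : 2 ≤ b) {y : ℝ} (hy : 1 ≤ y) (d k : ℕ) :
    (Nat.digits b ⌊y * (b : ℝ) ^ k⌋₊).length = (Nat.digits b ⌊y⌋₊).length + k ∧
    (Nat.digits b ⌊y * (b : ℝ) ^ k⌋₊).count d = (Nat.digits b ⌊y⌋₊).count d +
      ((Finset.Icc 1 k).filter fun i => ⌊y * (b : ℝ) ^ i⌋₊ % b = d).card := by
  induction k with
  | zero => simp
  | succ k ih =>
    obtain ⟨h1, h2⟩ := ih
    rw [digits_step hb hy k]
    refine ⟨by rw [List.length_cons, h1]; ring, ?_⟩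
    rw [List.count_cons, h2]
    have e : Finset.Icc 1 (k + 1) = insert (k + 1) (Finset.Icc 1 k) := by
      ext i
      simp only [Finset.mem_Icc, Finset.mem_insert]
      omega
    rw [e, Finset.filter_insert]
    by_cases h : ⌊y * (b : ℝ) ^ (k + 1)⌋₊ % b = d
    · rw [if_pos h, Finset.card_insert_of_notMem (by simp)]
      simp only [h, beq_self_eq_true, if_true]
      ring
    · rw [if_neg h]
      simp [h]

lemma fr_ffr {b : ℕ} (hb : 2 ≤ b) {y : ℝ} (hy : 1 ≤ y) (d : ℕ) {k : ℕ} (hk : 0 < k) :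
    |fr b ⌊y * (b : ℝ) ^ k⌋₊ d - ffr b k y d| ≤ ((Nat.digits b ⌊y⌋₊).length : ℝ) / k := by
  obtain ⟨h1, h2⟩ := digits_all hb hy d k
  unfold fr ffr
  rw [h1, h2]
  have hA : ((Nat.digits b ⌊y⌋₊).count d : ℝ) ≤ (Nat.digits b ⌊y⌋₊).length := by
    exact_mod_cast List.count_le_length
  have hB : (((Finset.Icc 1 k).filter fun i => ⌊y * (b : ℝ) ^ i⌋₊ % b = d).card : ℝ) ≤ k := by
    have := Finset.card_filter_le (Finset.Icc 1 k) fun i => ⌊y * (b : ℝ) ^ i⌋₊ % b = d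
    rw [Nat.card_Icc] at this
    exact_mod_cast this.trans (by omega)
  push_cast
  set A : ℝ := ((Nat.digits b ⌊y⌋₊).count d : ℝ)
  set L : ℝ := ((Nat.digits b ⌊y⌋₊).length : ℝ)
  set B : ℝ := (((Finset.Icc 1 k).filter fun i => ⌊y * (b : ℝ) ^ i⌋₊ % b = d).card : ℝ)
  have hk0 : (0 : ℝ) < k := by exact_mod_cast hk
  have hA0 : 0 ≤ A := Nat.cast_nonneg _
  have hB0 : 0 ≤ B := Nat.cast_nonneg _
  have hL0 : 0 ≤ L := Nat.cast_nonneg _
  have e : (A + B) / (L + k) - B / k = (A * k - B * L) / ((L + k) * k) := by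
    field_simp
    ring
  rw [e, abs_div, abs_of_pos (show 0 < (L + k) * k by positivity),
    div_le_div_iff₀ (by positivity) hk0]
  have h3 : |A * k - B * L| ≤ L * k := by
    rw [abs_le]
    constructor
    · nlinarith [mul_nonneg hA0 hk0.le]
    · nlinarith [mul_nonneg hB0 hL0]
  calc |A * k - B * L| * k ≤ (L * k) * k := by gcongr
    _ ≤ L * ((L + k) * k) := by nlinarith [mul_nonneg (mul_nonneg hL0 hL0) hk0.le]

lemma len_bound {b : ℕ} (hb : 2 ≤ b) {y : ℝ} (hy : 1 ≤ y) :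
    ((Nat.digits b ⌊y⌋₊).length : ℝ) ≤ Real.log y / Real.log b + 1 := by
  have hb1 : (1 : ℝ) < b := by exact_mod_cast (show 1 < b by omega)
  have h0 : 0 < ⌊y⌋₊ := by
    rw [Nat.floor_pos]; exact hy
  rw [Nat.digits_len b _ (by omega) h0.ne']
  push_cast
  have h1 : ((Nat.log b ⌊y⌋₊ : ℕ) : ℝ) ≤ Real.log y / Real.log b := by
    rw [le_div_iff₀ (Real.log_pos hb1), ← Real.log_pow]
    apply Real.log_le_log (by positivity)
    have h2 : b ^ Nat.log b ⌊y⌋₊ ≤ ⌊y⌋₊ := Nat.pow_log_le_self b h0.ne'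
    calc (b : ℝ) ^ Nat.log b ⌊y⌋₊ = ((b ^ Nat.log b ⌊y⌋₊ : ℕ) : ℝ) := by push_cast; rfl
      _ ≤ (⌊y⌋₊ : ℝ) := by exact_mod_cast h2
      _ ≤ y := Nat.floor_le (by linarith)
  linarith

/-- the difference of the two frequencies is eventually small, uniformly in the digit -/
lemma ev_close {b : ℕ} (hb : 2 ≤ b) {θ : ℝ} (hθ : 1 < θ) {k : ℕ → ℕ}
    (hk : Tendsto (fun n : ℕ => (k n : ℝ) / n) atTop atTop) {x : ℝ} (hx : 0 < x) {ε : ℝ}
    (hε : 0 < ε) :
    ∀ᶠ n in atTop, ∀ d : ℕ, |fr b ⌊x * (θ ^ n * (b : ℝ) ^ k n)⌋₊ d - ffr b (k n) (x * θ ^ n) d|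
      < ε := by
  have hb1 : (1 : ℝ) < b := by exact_mod_cast (show 1 < b by omega)
  have hlb := Real.log_pos hb1
  set C : ℝ := |Real.log x| / Real.log b + Real.log θ / Real.log b + 1 with hC
  have hlθ := Real.log_pos hθ
  have hC0 : 0 < C := by positivity
  have hpow : Tendsto (fun n : ℕ => θ ^ n) atTop atTop := tendsto_pow_atTop_atTop_of_one_lt hθ
  filter_upwards [hk.eventually_gt_atTop (C / ε), hpow.eventually_ge_atTop (1 / x),
    eventually_ge_atTop 1] with n h1 h2 h3 d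
  have hn : (1 : ℝ) ≤ n := by exact_mod_cast h3
  have hy : 1 ≤ x * θ ^ n := by
    rw [div_le_iff₀ hx] at h2
    linarith
  have h4 : C / ε * n < k n := by
    rw [lt_div_iff₀ (by linarith)] at h1
    exact h1
  have hk0 : (0 : ℝ) < k n := lt_of_le_of_lt (by positivity) h4
  have hk1 : 0 < k n := by exact_mod_cast hk0
  rw [← mul_assoc]
  refine (fr_ffr hb hy d hk1).trans_lt ?_
  rw [div_lt_iff₀ hk0]
  have h5 := len_bound hb hy
  have h6 : Real.log (x * θ ^ n) / Real.log b + 1 ≤ C * n := by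
    rw [Real.log_mul hx.ne' (by positivity), Real.log_pow, hC, add_div]
    have h7 : Real.log x / Real.log b ≤ |Real.log x| / Real.log b * n := by
      have : Real.log x / Real.log b ≤ |Real.log x| / Real.log b := by
        gcongr
        exact le_abs_self _
      have h8 : 0 ≤ |Real.log x| / Real.log b := by positivity
      nlinarith
    have h9 : (n : ℝ) * Real.log θ / Real.log b = Real.log θ / Real.log b * n := by ring
    rw [h9]
    nlinarith
  have h10 : C * n < ε * k n := by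
    have := mul_lt_mul_of_pos_left h4 hε
    have e : ε * (C / ε * n) = C * n := by
      field_simp
    linarith
  linarith

/-- limit points of the frequencies of the first `k n` digits after the point of `x θ ^ n` -/
def FLimitPt (b : ℕ) (k : ℕ → ℕ) (θ x : ℝ) (p : Fin b → ℝ) : Prop :=
  ∀ ε : ℝ, 0 < ε → ∃ᶠ n in atTop, ∀ d : Fin b, |ffr b (k n) (x * θ ^ n) d - p d| < ε

lemma limit_iff {b : ℕ} (hb : 2 ≤ b) {θ : ℝ} (hθ : 1 < θ) {k : ℕ → ℕ}
    (hk : Tendsto (fun n : ℕ => (k n : ℝ) / n) atTop atTop) {x : ℝ} (hx : 0 < x)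
    (p : Fin b → ℝ) :
    FLimitPt b k θ x p ↔ LimitPt b (fun n => θ ^ n * (b : ℝ) ^ k n) x p := by
  constructor
  · intro h ε hε
    refine ((h (ε / 2) (by positivity)).and_eventually
      (ev_close hb hθ hk hx (show 0 < ε / 2 by positivity))).mono ?_
    rintro n ⟨h1, h2⟩ d
    have h3 := h1 d
    have h4 := h2 d
    have h5 := abs_sub_le (fr b ⌊x * (θ ^ n * (b : ℝ) ^ k n)⌋₊ d) (ffr b (k n) (x * θ ^ n) d) (p d)
    linarith
  · intro h ε hε
    refine ((h (ε / 2) (by positivity)).and_eventually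
      (ev_close hb hθ hk hx (show 0 < ε / 2 by positivity))).mono ?_
    rintro n ⟨h1, h2⟩ d
    have h3 := h1 d
    have h4 := h2 d
    rw [abs_sub_comm] at h4
    have h5 := abs_sub_le (ffr b (k n) (x * θ ^ n) d) (fr b ⌊x * (θ ^ n * (b : ℝ) ^ k n)⌋₊ d) (p d)
    simp only at h3
    linarith

lemma seq_pos {b : ℕ} (hb : 2 ≤ b) {θ : ℝ} (hθ : 1 < θ) (k : ℕ → ℕ) (n : ℕ) :
    0 < θ ^ n * (b : ℝ) ^ k n := by
  have hb0 : (0 : ℝ) < b := by positivity
  have : 0 < θ := by linarith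
  positivity

lemma seq_summable {b : ℕ} (hb : 2 ≤ b) {θ : ℝ} (hθ : 1 < θ) (k : ℕ → ℕ) (t : ℝ) (ht : 0 < t) :
    Summable fun n : ℕ => (θ ^ n * (b : ℝ) ^ k n) ^ (-t) := by
  have hb1 : (1 : ℝ) ≤ b := by exact_mod_cast (show 1 ≤ b by omega)
  have h0 : 0 < θ := by linarith
  refine Summable.of_nonneg_of_le (fun n => ?_) (fun n => ?_) ((geom θ hθ).2 t ht)
  · exact Real.rpow_nonneg (seq_pos hb hθ k n).le _
  · apply Real.rpow_le_rpow_of_nonpos (by positivity) _ (by linarith)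
    have h1 : (1 : ℝ) ≤ (b : ℝ) ^ k n := one_le_pow₀ hb1
    have h2 : 0 < θ ^ n := by positivity
    nlinarith

end Pool.Agent.R485.MF
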