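import Pool.Agent.R485.MF.Mass

/-! # Project MF: the digit sets have full content -/

set_option autoImplicit false

open Filter Topology MeasureTheory Set
open Pool.Agent.R331.MT
open scoped ENNReal

namespace Pool.Agent.R485.MF

/-- `y` such that the digits of `⌊(u + h y) c_n⌋` have frequencies within `ε` of `p` for some
`n ≥ N` -/
def US (b : ℕ) (p : Fin b → ℝ) (c : ℕ → ℝ) (u h ε : ℝ) (N : ℕ) : Set ℝ :=
  {y : ℝ | ∃ n : ℕ, N ≤ n ∧ ∃ m : ℕ, ((m : ℝ) < (u + h * y) * c n ∧
    (u + h * y) * c n < m + 1) ∧ ∀ d : Fin b, |fr b m d - p d| < ε}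

lemma US_open (b : ℕ) (p : Fin b → ℝ) (c : ℕ → ℝ) (u h ε : ℝ) (N : ℕ) :
    IsOpen (US b p c u h ε N) := by
  have e : US b p c u h ε N = ⋃ n : ℕ, ⋃ _ : N ≤ n, ⋃ m : ℕ, ⋃ _ : ∀ d : Fin b,
      |fr b m d - p d| < ε, {y : ℝ | (m : ℝ) < (u + h * y) * c n} ∩
        {y : ℝ | (u + h * y) * c n < m + 1} := by
    ext y
    simp only [US, mem_iUnion, mem_inter_iff, mem_ofPred_eq, exists_prop]
    constructor
    · rintro ⟨n, hn, m, h1, h2⟩
      exact ⟨n, hn, m, h2, h1⟩
    · rintro ⟨n, hn, m, h1, h2⟩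
      exact ⟨n, hn, m, h2, h1⟩
  rw [e]
  refine isOpen_iUnion fun n => isOpen_iUnion fun _ => isOpen_iUnion fun m =>
    isOpen_iUnion fun _ => ?_
  exact (isOpen_lt (by fun_prop) (by fun_prop)).inter (isOpen_lt (by fun_prop) (by fun_prop))

/-- the mass on small intervals around well distributed integers -/
lemma mass (V : Set ℝ) (cn u h x δ s C : ℝ) (hcn : 0 < cn) (hh : 0 < h) (hδ : 0 < δ) (hs : 0 < s)
    (hs1 : s < 1) (hC : 0 < C)
    (hY : 1 ≤ h * δ * cn) (M : Finset ℕ) (hM : M.Nonempty)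
    (hV : ∀ m ∈ M, ∀ y : ℝ, (m : ℝ) < (u + h * y) * cn → (u + h * y) * cn < m + 1 → y ∈ V)
    (hr : ∀ m ∈ M, (u + h * x) * cn ≤ m ∧ (m : ℝ) + 1 ≤ (u + h * x) * cn + h * δ * cn)
    (hd : ∀ z X : ℝ, 1 ≤ X → X ≤ h * δ * cn →
      ((M.filter fun m : ℕ => z ≤ (m : ℝ) ∧ (m : ℝ) ≤ z + X).card : ℝ) ≤
        C * (X / (h * δ * cn)) ^ s * M.card) :
    ∃ μ : Measure ℝ, μ univ = 1 ∧ μ (V ∩ Ico x (x + δ))ᶜ = 0 ∧
      ∀ y r : ℝ, 0 < r → r ≤ δ → μ (Ico y (y + r)) ≤ ENNReal.ofReal (2 * C * (r / δ) ^ s) := by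
  classical
  set I : ℕ → Set ℝ := fun m => Ioo (((m : ℝ) / cn - u) / h) ((((m : ℝ) + 1) / cn - u) / h) with hI
  have hmemI : ∀ m y, y ∈ I m ↔ ((m : ℝ) < (u + h * y) * cn ∧ (u + h * y) * cn < m + 1) := by
    intro m y
    simp only [hI, mem_Ioo]
    rw [div_lt_iff₀ hh, lt_div_iff₀ hh, sub_lt_iff_lt_add, lt_sub_iff_add_lt, div_lt_iff₀ hcn,
      lt_div_iff₀ hcn]
    constructor
    · rintro ⟨h1, h2⟩
      constructor <;> nlinarith
    · rintro ⟨h1, h2⟩
      constructor <;> nlinarith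
  have hIm : ∀ m, MeasurableSet (I m) := fun m => measurableSet_Ioo
  have hlen : ∀ m : ℕ, (((m : ℝ) + 1) / cn - u) / h - ((m : ℝ) / cn - u) / h = 1 / (h * cn) := by
    intro m
    field_simp
    ring
  have hvol : ∀ m, volume (I m) = ENNReal.ofReal (1 / (h * cn)) := by
    intro m
    simp only [hI]
    rw [Real.volume_Ioo, hlen]
  have hcard0 : (M.card : ℝ≥0∞) ≠ 0 := by
    simpa using hM.ne_empty
  have hcardt : (M.card : ℝ≥0∞) ≠ ⊤ := ENNReal.natCast_ne_top _
  have hcard : (0 : ℝ) < M.card := by exact_mod_cast hM.card_pos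
  have hhc : 0 < h * cn := mul_pos hh hcn
  have hone : ENNReal.ofReal (h * cn) * ENNReal.ofReal (1 / (h * cn)) = 1 := by
    rw [← ENNReal.ofReal_mul hhc.le, mul_one_div_cancel hhc.ne', ENNReal.ofReal_one]
  set μ : Measure ℝ := (M.card : ℝ≥0∞)⁻¹ • ∑ m ∈ M, ENNReal.ofReal (h * cn) •
    (volume.restrict (I m)) with hμ
  have hval : ∀ A : Set ℝ, μ A = (M.card : ℝ≥0∞)⁻¹ * ∑ m ∈ M, ENNReal.ofReal (h * cn) *
      volume (A ∩ I m) := by
    intro A
    rw [hμ, Measure.smul_apply, Measure.finsetSum_apply, smul_eq_mul]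
    congr 1
    apply Finset.sum_congr rfl
    intro m _
    rw [Measure.smul_apply, smul_eq_mul, Measure.restrict_apply' (hIm m)]
  refine ⟨μ, ?_, ?_, ?_⟩
  · rw [hval]
    have : ∀ m ∈ M, ENNReal.ofReal (h * cn) * volume (univ ∩ I m) = 1 := by
      intro m _
      rw [univ_inter, hvol, hone]
    rw [Finset.sum_congr rfl this, Finset.sum_const, nsmul_eq_mul, mul_one]
    exact ENNReal.inv_mul_cancel hcard0 hcardt
  · rw [hval]
    have : ∀ m ∈ M, ENNReal.ofReal (h * cn) * volume ((V ∩ Ico x (x + δ))ᶜ ∩ I m) = 0 := by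
      intro m hm
      have e : (V ∩ Ico x (x + δ))ᶜ ∩ I m = ∅ := by
        ext y
        simp only [mem_inter_iff, mem_compl_iff, mem_empty_iff_false, iff_false, not_and]
        intro h1 h2
        obtain ⟨h3, h4⟩ := (hmemI m y).1 h2
        obtain ⟨h5, h6⟩ := hr m hm
        refine h1 (hV m hm y h3 h4) ⟨?_, ?_⟩
        · by_contra hcon
          push Not at hcon
          have : (u + h * y) * cn < (u + h * x) * cn := by
            apply mul_lt_mul_of_pos_right _ hcn
            nlinarith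
          linarith
        · by_contra hcon
          push Not at hcon
          have : (u + h * (x + δ)) * cn ≤ (u + h * y) * cn := by
            apply mul_le_mul_of_nonneg_right _ hcn.le
            nlinarith
          nlinarith
      rw [e, measure_empty, mul_zero]
    rw [Finset.sum_eq_zero this, mul_zero]
  · intro y r hr0 hrδ
    rw [hval]
    set z : ℝ := (u + h * y) * cn with hz
    set Xr : ℝ := h * r * cn with hXr
    have hXr0 : 0 < Xr := by positivity
    -- the integers whose interval meets the given one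
    have hmeet : ∀ m : ℕ, (Ico y (y + r) ∩ I m).Nonempty → z - 1 < m ∧ (m : ℝ) < z + Xr := by
      rintro m ⟨w, hw1, hw2⟩
      obtain ⟨h3, h4⟩ := (hmemI m w).1 hw2
      have h5 : z ≤ (u + h * w) * cn := by
        apply mul_le_mul_of_nonneg_right _ hcn.le
        nlinarith [hw1.1]
      have h6 : (u + h * w) * cn < z + Xr := by
        have : (u + h * w) * cn < (u + h * (y + r)) * cn := by
          apply mul_lt_mul_of_pos_right _ hcn
          nlinarith [hw1.2]
        have e : (u + h * (y + r)) * cn = z + Xr := by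
          rw [hz, hXr]; ring
        linarith
      constructor <;> linarith
    have hYr : Xr / (h * δ * cn) = r / δ := by
      rw [hXr]
      field_simp
    have hXY : Xr ≤ h * δ * cn := by
      rw [hXr]
      have : h * r ≤ h * δ := mul_le_mul_of_nonneg_left hrδ hh.le
      exact mul_le_mul_of_nonneg_right this hcn.le
    -- a general bound
    have gen : ∀ X v : ℝ, 1 ≤ X → X ≤ h * δ * cn → 0 ≤ v → Xr ≤ X →
        (∀ m ∈ M, ENNReal.ofReal (h * cn) * volume (Ico y (y + r) ∩ I m) ≤ ENNReal.ofReal v) →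
        (M.card : ℝ≥0∞)⁻¹ * ∑ m ∈ M, ENNReal.ofReal (h * cn) * volume (Ico y (y + r) ∩ I m) ≤
          ENNReal.ofReal (2 * C * (X / (h * δ * cn)) ^ s * v) := by
      intro X v hX1 hX2 hv hX3 hb
      have h1 : ∑ m ∈ M, ENNReal.ofReal (h * cn) * volume (Ico y (y + r) ∩ I m) ≤
          ∑ m ∈ (M.filter fun m : ℕ => (z - 1 ≤ (m : ℝ) ∧ (m : ℝ) ≤ (z - 1) + X)) ∪
            (M.filter fun m : ℕ => (z ≤ (m : ℝ) ∧ (m : ℝ) ≤ z + X)), ENNReal.ofReal v := by
        rw [← Finset.filter_or, Finset.sum_filter]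
        apply Finset.sum_le_sum
        intro m hm
        split_ifs with hc
        · exact hb m hm
        · have e : Ico y (y + r) ∩ I m = ∅ := by
            by_contra hne
            obtain ⟨h3, h4⟩ := hmeet m (nonempty_iff_ne_empty.2 hne)
            apply hc
            rcases le_total (m : ℝ) ((z - 1) + X) with h5 | h5
            · exact Or.inl ⟨h3.le, h5⟩
            · exact Or.inr ⟨by linarith, by linarith⟩
          rw [e, measure_empty, mul_zero]
      have h2 : (((M.filter fun m : ℕ => (z - 1 ≤ (m : ℝ) ∧ (m : ℝ) ≤ (z - 1) + X)) ∪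
            (M.filter fun m : ℕ => (z ≤ (m : ℝ) ∧ (m : ℝ) ≤ z + X))).card : ℝ) ≤
          2 * C * (X / (h * δ * cn)) ^ s * M.card := by
        have h3 := Finset.card_union_le (M.filter fun m : ℕ => (z - 1 ≤ (m : ℝ) ∧
          (m : ℝ) ≤ (z - 1) + X)) (M.filter fun m : ℕ => (z ≤ (m : ℝ) ∧ (m : ℝ) ≤ z + X))
        have h4 : (((M.filter fun m : ℕ => (z - 1 ≤ (m : ℝ) ∧ (m : ℝ) ≤ (z - 1) + X)) ∪
            (M.filter fun m : ℕ => (z ≤ (m : ℝ) ∧ (m : ℝ) ≤ z + X))).card : ℝ) ≤
            ((M.filter fun m : ℕ => (z - 1 ≤ (m : ℝ) ∧ (m : ℝ) ≤ (z - 1) + X)).card : ℝ) +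
            ((M.filter fun m : ℕ => (z ≤ (m : ℝ) ∧ (m : ℝ) ≤ z + X)).card : ℝ) := by
          exact_mod_cast h3
        have h5 := hd (z - 1) X hX1 hX2
        have h6 := hd z X hX1 hX2
        linarith
      calc (M.card : ℝ≥0∞)⁻¹ * ∑ m ∈ M, ENNReal.ofReal (h * cn) * volume (Ico y (y + r) ∩ I m)
          ≤ (M.card : ℝ≥0∞)⁻¹ * ∑ m ∈ (M.filter fun m : ℕ => (z - 1 ≤ (m : ℝ) ∧
              (m : ℝ) ≤ (z - 1) + X)) ∪
              (M.filter fun m : ℕ => (z ≤ (m : ℝ) ∧ (m : ℝ) ≤ z + X)), ENNReal.ofReal v := by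
            gcongr
        _ ≤ ENNReal.ofReal ((M.card : ℝ)⁻¹) *
            ENNReal.ofReal ((2 * C * (X / (h * δ * cn)) ^ s * M.card) * v) := by
            rw [Finset.sum_const, nsmul_eq_mul]
            have e1 : (M.card : ℝ≥0∞)⁻¹ = ENNReal.ofReal ((M.card : ℝ)⁻¹) := by
              rw [ENNReal.ofReal_inv_of_pos hcard, ENNReal.ofReal_natCast]
            rw [e1]
            gcongr
            rw [ENNReal.ofReal_mul (by positivity)]
            gcongr
            rw [← ENNReal.ofReal_natCast]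
            exact ENNReal.ofReal_le_ofReal h2
        _ = ENNReal.ofReal (2 * C * (X / (h * δ * cn)) ^ s * v) := by
            rw [← ENNReal.ofReal_mul (by positivity)]
            congr 1
            field_simp
    rcases le_total 1 Xr with h1 | h1
    · have h2 := gen Xr 1 h1 hXY zero_le_one le_rfl (by
        intro m hm
        rw [ENNReal.ofReal_one, ← hone, ← hvol m]
        gcongr
        exact inter_subset_right)
      rwa [hYr, mul_one] at h2
    · have h2 := gen 1 Xr le_rfl hY hXr0.le h1 (by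
        intro m hm
        calc ENNReal.ofReal (h * cn) * volume (Ico y (y + r) ∩ I m)
            ≤ ENNReal.ofReal (h * cn) * volume (Ico y (y + r)) := by
              gcongr
              exact inter_subset_left
          _ = ENNReal.ofReal Xr := by
              rw [Real.volume_Ico, ← ENNReal.ofReal_mul hhc.le]
              congr 1
              rw [hXr]; ring)
      refine h2.trans (ENNReal.ofReal_le_ofReal ?_)
      have hY0 : 0 < h * δ * cn := by linarith
      have h3 : Xr ≤ Xr ^ s := by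
        calc Xr = Xr ^ (1 : ℝ) := (Real.rpow_one _).symm
          _ ≤ Xr ^ s := Real.rpow_le_rpow_of_exponent_ge hXr0 h1 hs1.le
      have h4 : (1 / (h * δ * cn)) ^ s * Xr ≤ (r / δ) ^ s := by
        rw [← hYr, Real.div_rpow (by positivity) (by positivity),
          Real.div_rpow (by positivity) (by positivity), Real.one_rpow, one_div, inv_mul_eq_div]
        exact div_le_div_of_nonneg_right h3 (by positivity)
      calc 2 * C * (1 / (h * δ * cn)) ^ s * Xr = 2 * C * ((1 / (h * δ * cn)) ^ s * Xr) := by ring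
        _ ≤ 2 * C * (r / δ) ^ s := mul_le_mul_of_nonneg_left h4 (by positivity)

/-- **The digit sets have full content.** -/
theorem full_US (hcomb : S_comb) {b : ℕ} (hb : 2 ≤ b) {p : Fin b → ℝ} (hp : IsProb p)
    {c : ℕ → ℝ} (hc0 : ∀ n, 0 < c n) (hc : Tendsto c atTop atTop) {u h : ℝ} (hu : 0 < u)
    (hh : 0 < h) {s ε : ℝ} (hs : 0 < s) (hs1 : s < 1) (hse : s < ent p) (hε : 0 < ε) (N : ℕ) :
    Full s (US b p c u h ε N) := by
  obtain ⟨C, hC, hC'⟩ := hcomb b hb p hp s ε hs hse hε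
  refine t_mass s hs hs1 _ (2 * C) (by linarith) ?_
  intro x δ hx hδ hxδ
  have hux : 0 < u + h * x := by positivity
  obtain ⟨Y₀, hY₀⟩ := hC' ((u + h * x) / (h * δ)) (by positivity)
  obtain ⟨n, hn1, hn2⟩ := ((eventually_ge_atTop N).and
    (hc.eventually_ge_atTop (max Y₀ 1 / (h * δ)))).exists
  have hhδ : 0 < h * δ := by positivity
  have hY1 : max Y₀ 1 ≤ h * δ * c n := by
    rw [div_le_iff₀ hhδ] at hn2
    linarith
  obtain ⟨M, hM1, hM2, hM3⟩ := hY₀ ((u + h * x) * c n) (h * δ * c n)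
    ((le_max_left _ _).trans hY1) (mul_pos hux (hc0 n)) (by
      have e : (u + h * x) / (h * δ) * (h * δ * c n) = (u + h * x) * c n := by
        field_simp
      rw [e])
  exact mass _ (c n) u h x δ s C (hc0 n) hh hδ hs hs1 (by linarith) ((le_max_right _ _).trans hY1)
    M hM1 (fun m hm y h1 h2 => ⟨n, hn1, m, ⟨h1, h2⟩, (hM2 m hm).2.2⟩)
    (fun m hm => ⟨(hM2 m hm).1, (hM2 m hm).2.1⟩) hM3

end Pool.Agent.R485.MF
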