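import Pool.Agent.R485.MF.Stm2

/-! # Project MF, MF-GEN: for generic `x` all probability vectors are limit points -/

set_option autoImplicit false

open Filter Topology MeasureTheory Set
open scoped ENNReal

namespace Pool.Agent.R485.MF

namespace Gen

/-- the open set of `x` such that, for some `n ≥ N`, `x c_n` is in `(m, m+1)` with `m` having digit
frequencies close to `q` -/
def O (b : ℕ) (c : ℕ → ℝ) (q : Fin b → ℝ) (k N : ℕ) : Set ℝ :=
  {x | ∃ n, N ≤ n ∧ ∃ m : ℕ, (m : ℝ) < x * c n ∧ x * c n < m + 1 ∧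
    ∀ d : Fin b, |fr b m d - q d| < 1 / ((k : ℝ) + 1)}

theorem isOpen_O (b : ℕ) (c : ℕ → ℝ) (q : Fin b → ℝ) (k N : ℕ) : IsOpen (O b c q k N) := by
  rw [isOpen_iff_mem_nhds]
  rintro x ⟨n, hn, m, h1, h2, h3⟩
  have hc : Continuous fun x : ℝ => x * c n := by fun_prop
  filter_upwards [hc.continuousAt.eventually (lt_mem_nhds h1),
    hc.continuousAt.eventually (gt_mem_nhds h2)] with y hy1 hy2
  exact ⟨n, hn, m, hy1, hy2, h3⟩

theorem dense_O (hcomb : S_comb) (b : ℕ) (hb : 2 ≤ b) (c : ℕ → ℝ) (hpos : ∀ n, 0 < c n)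
    (hc : Tendsto c atTop atTop) (q : Fin b → ℝ) (hq : IsProb q) (he : 0 < ent q) (k N : ℕ) :
    Dense (O b c q k N ∪ Iio 0) := by
  rw [Metric.dense_iff]
  intro x₀ δ hδ
  rcases le_or_gt x₀ 0 with hx | hx
  · refine ⟨x₀ - δ / 2, ?_, Or.inr ?_⟩
    · rw [Metric.mem_ball, Real.dist_eq, abs_lt]
      constructor <;> linarith
    · rw [mem_Iio]
      linarith
  · obtain ⟨C, hC, h⟩ := hcomb b hb q hq (ent q / 2) (1 / ((k : ℝ) + 1)) (by linarith)
      (by linarith) (by positivity)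
    obtain ⟨Y₀, hY⟩ := h (x₀ / (δ / 2)) (by positivity)
    obtain ⟨n, hn1, hn2⟩ :=
      ((hc.eventually_ge_atTop (Y₀ / (δ / 2))).and (eventually_ge_atTop N)).exists
    have hcn := hpos n
    rw [div_le_iff₀ (by positivity)] at hn1
    obtain ⟨M, ⟨m, hm⟩, hM, -⟩ := hY (x₀ * c n) (δ / 2 * c n) (by linarith) (mul_pos hx hcn)
      (le_of_eq (by field_simp))
    obtain ⟨h1, h2, h3⟩ := hM m hm
    have e : ((m : ℝ) + 1 / 2) / c n * c n = m + 1 / 2 := div_mul_cancel₀ _ hcn.ne'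
    refine ⟨((m : ℝ) + 1 / 2) / c n, ?_, Or.inl ⟨n, hn2, m, ?_, ?_, h3⟩⟩
    · rw [Metric.mem_ball, Real.dist_eq, abs_lt]
      constructor
      · have : x₀ ≤ ((m : ℝ) + 1 / 2) / c n := by
          rw [le_div_iff₀ hcn]
          linarith
        linarith
      · have : ((m : ℝ) + 1 / 2) / c n < x₀ + δ / 2 := by
          rw [div_lt_iff₀ hcn, add_mul]
          linarith
        linarith
    · rw [e]
      linarith
    · rw [e]
      linarith

theorem res (hcomb : S_comb) (b : ℕ) (hb : 2 ≤ b) (c : ℕ → ℝ) (hpos : ∀ n, 0 < c n)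
    (hc : Tendsto c atTop atTop) (q : Fin b → ℝ) (hq : IsProb q) (he : 0 < ent q) (k N : ℕ) :
    ∀ᶠ x in residual ℝ, 0 < x → x ∈ O b c q k N := by
  have h : O b c q k N ∪ Iio 0 ∈ residual ℝ :=
    residual_of_dense_open ((isOpen_O b c q k N).union isOpen_Iio)
      (dense_O hcomb b hb c hpos hc q hq he k N)
  filter_upwards [h] with x hx h0
  rcases hx with hx | hx
  · exact hx
  · exact absurd (mem_Iio.1 hx) (not_lt.2 h0.le)

theorem approx {b : ℕ} (hb : 2 ≤ b) (p : Fin b → ℝ) (hp : IsProb p) (ε : ℝ) (hε : 0 < ε) :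
    ∃ p' : Fin b → ℝ, IsProb p' ∧ 0 < ent p' ∧ ∀ d, |p' d - p d| ≤ ε := by
  obtain ⟨τ, h0, h1, h2⟩ : ∃ τ : ℝ, 0 < τ ∧ τ ≤ ε ∧ τ ≤ 1 / 2 :=
    ⟨min ε (1 / 2), lt_min hε (by norm_num), min_le_left _ _, min_le_right _ _⟩
  have hb2 : (2 : ℝ) ≤ b := by exact_mod_cast hb
  have hb0 : (0 : ℝ) < b := by linarith
  have hp1 : ∀ d, p d ≤ 1 := fun d => by
    rw [← hp.2]
    exact Finset.single_le_sum (fun i _ => hp.1 i) (Finset.mem_univ d)
  have hinv0 : 0 < 1 / (b : ℝ) := by positivity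
  have hinv : 1 / (b : ℝ) ≤ 1 / 2 := one_div_le_one_div_of_le (by norm_num) hb2
  have hpos : ∀ d, 0 < (1 - τ) * p d + τ * (1 / b) := fun d => by
    have := mul_nonneg (by linarith : (0 : ℝ) ≤ 1 - τ) (hp.1 d)
    have := mul_pos h0 hinv0
    linarith
  have hlt : ∀ d, (1 - τ) * p d + τ * (1 / b) < 1 := fun d => by
    have := mul_le_mul_of_nonneg_left (hp1 d) (by linarith : (0 : ℝ) ≤ 1 - τ)
    have := mul_le_mul_of_nonneg_left hinv h0.le
    linarith
  refine ⟨fun d => (1 - τ) * p d + τ * (1 / b), ⟨fun d => (hpos d).le, ?_⟩, ?_, fun d => ?_⟩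
  · rw [Finset.sum_add_distrib, ← Finset.mul_sum, hp.2, Finset.sum_const, Finset.card_univ,
      Fintype.card_fin, nsmul_eq_mul]
    field_simp
    ring
  · unfold ent
    refine div_pos (Finset.sum_pos (fun d _ => ?_) ⟨⟨0, by omega⟩, Finset.mem_univ _⟩)
      (Real.log_pos (by linarith))
    rw [Real.negMulLog, neg_mul]
    exact neg_pos.2 (mul_neg_of_pos_of_neg (hpos d) (Real.log_neg (hpos d) (hlt d)))
  · have e : (1 - τ) * p d + τ * (1 / b) - p d = τ * (1 / b - p d) := by ring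
    rw [e, abs_mul, abs_of_pos h0]
    have h3 : |1 / (b : ℝ) - p d| ≤ 1 := by
      rw [abs_le]
      constructor
      · have := hp1 d
        linarith
      · have := hp.1 d
        linarith
    calc τ * |1 / (b : ℝ) - p d| ≤ τ * 1 := mul_le_mul_of_nonneg_left h3 h0.le
      _ ≤ ε := by linarith

end Gen

open Gen in
theorem t_gen : S_gen := by
  intro hcomb c hpos hc
  have hQ : ∀ b : ℕ, ∃ Q : Set {q : Fin b → ℝ // IsProb q ∧ 0 < ent q},
      Q.Countable ∧ Dense Q := fun b => TopologicalSpace.exists_countable_dense _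
  choose Q hQc hQd using hQ
  have key : ∀ᶠ x in residual ℝ, ∀ i : ℕ, ∀ b : ℕ, ∀ q ∈ Q b, ∀ k N : ℕ, 2 ≤ b → 0 < x →
      x ∈ O b (c i) q.1 k N := by
    rw [eventually_countable_forall]
    intro i
    rw [eventually_countable_forall]
    intro b
    rw [eventually_countable_ball (hQc b)]
    intro q hq
    rw [eventually_countable_forall]
    intro k
    rw [eventually_countable_forall]
    intro N
    by_cases hb : 2 ≤ b
    · filter_upwards [res hcomb b hb (c i) (hpos i) (hc i) q.1 q.2.1 q.2.2 k N] with x hx _ h0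
      exact hx h0
    · exact Eventually.of_forall fun x h => absurd h hb
  filter_upwards [key] with x hx h0 i b hb p hp ε hε
  obtain ⟨p', hp', he', hd'⟩ := approx hb p hp (ε / 4) (by linarith)
  obtain ⟨q, hqQ, hqd⟩ := (hQd b).exists_dist_lt ⟨p', hp', he'⟩ (by linarith : 0 < ε / 4)
  obtain ⟨k, hk⟩ := exists_nat_one_div_lt (by linarith : 0 < ε / 4)
  rw [frequently_atTop]
  intro N
  obtain ⟨n, hn, m, h1, h2, h3⟩ := hx i b q hqQ k N hb h0
  refine ⟨n, hn, fun d => ?_⟩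
  have hf : ⌊x * c i n⌋₊ = m := by
    rw [Nat.floor_eq_iff (mul_pos h0 (hpos i n)).le]
    exact ⟨h1.le, h2⟩
  rw [hf]
  have a1 := h3 d
  have a2 := hd' d
  have a3 : |p' d - q.1 d| < ε / 4 := by
    refine lt_of_le_of_lt ?_ hqd
    rw [← Real.dist_eq]
    exact dist_le_pi_dist p' q.1 d
  rw [abs_lt] at a1 a3 ⊢
  rw [abs_le] at a2
  constructor <;> linarith

end Pool.Agent.R485.MF
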