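import Pool.Agent.R485.MF.Stm

set_option autoImplicit false

/-! MF-LOW (helper790): many words with digit counts close to the expected ones. -/

open Filter Topology

namespace Pool.Agent.R485.MF

namespace LowAux

/-- number of the letters `d` -/
noncomputable def cnt {b ℓ : ℕ} (w : Fin ℓ → Fin b) (d : Fin b) : ℝ :=
  ((Finset.univ.filter fun i => w i = d).card : ℝ)

/-- the weight of a word -/
noncomputable def wt {b ℓ : ℕ} (p : Fin b → ℝ) (w : Fin ℓ → Fin b) : ℝ := ∏ i, p (w i)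

lemma wt_nonneg {b ℓ : ℕ} {p : Fin b → ℝ} (hp : IsProb p) (w : Fin ℓ → Fin b) : 0 ≤ wt p w :=
  Finset.prod_nonneg fun _ _ => hp.1 _

lemma p_le_one {b : ℕ} {p : Fin b → ℝ} (hp : IsProb p) (d : Fin b) : p d ≤ 1 := by
  rw [← hp.2]
  exact Finset.single_le_sum (fun a _ => hp.1 a) (Finset.mem_univ d)

lemma wt_exp {b ℓ : ℕ} (p : Fin b → ℝ) (w : Fin ℓ → Fin b) (d : Fin b) (t : ℝ) :
    ∏ i, (p (w i) * (if w i = d then Real.exp t else 1)) = wt p w * Real.exp (t * cnt w d) := by
  rw [Finset.prod_mul_distrib, Finset.prod_ite, Finset.prod_const_one, mul_one,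
    Finset.prod_const, ← Real.exp_nat_mul, mul_comm t]
  rfl

lemma mgf {b ℓ : ℕ} {p : Fin b → ℝ} (hp : IsProb p) (d : Fin b) {t : ℝ} (ht : |t| ≤ 1) :
    ∑ w : Fin ℓ → Fin b, wt p w * Real.exp (t * (cnt w d - ℓ * p d)) ≤ Real.exp (ℓ * t ^ 2) := by
  have h1 : ∑ w : Fin ℓ → Fin b, wt p w * Real.exp (t * cnt w d) =
      (1 + p d * (Real.exp t - 1)) ^ ℓ := by
    simp only [← wt_exp]
    have h2 : ∑ a, p a * (if a = d then Real.exp t else 1) = 1 + p d * (Real.exp t - 1) := by
      have h3 : ∀ a, p a * (if a = d then Real.exp t else 1) =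
          p a + (if a = d then p a * (Real.exp t - 1) else 0) := by
        intro a
        split_ifs
        · ring
        · ring
      simp only [h3]
      rw [Finset.sum_add_distrib, hp.2, Finset.sum_ite_eq' Finset.univ d]
      simp
    rw [← h2, Fintype.sum_pow]
  have hp0 := hp.1 d
  have hp1 := p_le_one hp d
  have h4 : 0 ≤ 1 + p d * (Real.exp t - 1) := by
    have := Real.exp_pos t
    nlinarith
  have h5 : 1 + p d * (Real.exp t - 1) ≤ Real.exp (p d * (Real.exp t - 1)) := by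
    have := Real.add_one_le_exp (p d * (Real.exp t - 1))
    linarith
  have h6 : ∀ w : Fin ℓ → Fin b, wt p w * Real.exp (t * (cnt w d - ℓ * p d)) =
      Real.exp (-(t * (ℓ * p d))) * (wt p w * Real.exp (t * cnt w d)) := by
    intro w
    rw [mul_sub, sub_eq_add_neg, Real.exp_add]
    ring
  simp only [h6]
  rw [← Finset.mul_sum, h1]
  calc Real.exp (-(t * (ℓ * p d))) * (1 + p d * (Real.exp t - 1)) ^ ℓ
      ≤ Real.exp (-(t * (ℓ * p d))) * (Real.exp (p d * (Real.exp t - 1))) ^ ℓ := by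
        gcongr
    _ = Real.exp (ℓ * (p d * (Real.exp t - 1 - t))) := by
        rw [← Real.exp_nat_mul, ← Real.exp_add]
        congr 1
        ring
    _ ≤ _ := by
        refine Real.exp_le_exp.2 ?_
        have h7 := (abs_le.1 (Real.abs_exp_sub_one_sub_id_le ht)).2
        have h8 : p d * (Real.exp t - 1 - t) ≤ 1 * t ^ 2 :=
          (mul_le_mul_of_nonneg_left h7 hp0).trans (mul_le_mul_of_nonneg_right hp1 (sq_nonneg t))
        rw [one_mul] at h8
        exact mul_le_mul_of_nonneg_left h8 (Nat.cast_nonneg ℓ)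

lemma bad {b ℓ : ℕ} {p : Fin b → ℝ} (hp : IsProb p) (d : Fin b) {ε : ℝ} (h0 : 0 < ε)
    (h1 : ε ≤ 1) :
    ∑ w : Fin ℓ → Fin b, (if ε * ℓ < |cnt w d - ℓ * p d| then wt p w else 0) ≤
      2 * Real.exp (-(ε ^ 2 / 4 * ℓ)) := by
  have ht : |ε / 2| ≤ 1 := by rw [abs_of_pos (by positivity)]; linarith
  have ht' : |-(ε / 2)| ≤ 1 := by rw [abs_neg]; exact ht
  have m1 := mgf (ℓ := ℓ) hp d ht
  have m2 := mgf (ℓ := ℓ) hp d ht'
  have h2 : ∀ w : Fin ℓ → Fin b, (if ε * ℓ < |cnt w d - ℓ * p d| then wt p w else 0) ≤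
      Real.exp (-(ε / 2 * (ε * ℓ))) * (wt p w * Real.exp (ε / 2 * (cnt w d - ℓ * p d)) +
        wt p w * Real.exp (-(ε / 2) * (cnt w d - ℓ * p d))) := by
    intro w
    have hw := wt_nonneg hp w
    split_ifs with h
    · rcases lt_abs.1 h with h | h
      · have h3 : 1 ≤ Real.exp (-(ε / 2 * (ε * ℓ))) * Real.exp (ε / 2 * (cnt w d - ℓ * p d)) := by
          rw [← Real.exp_add]
          refine Real.one_le_exp ?_
          nlinarith
        have h4 : 0 ≤ Real.exp (-(ε / 2 * (ε * ℓ))) *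
            (wt p w * Real.exp (-(ε / 2) * (cnt w d - ℓ * p d))) := by positivity
        nlinarith [mul_le_mul_of_nonneg_left h3 hw]
      · have h3 : 1 ≤ Real.exp (-(ε / 2 * (ε * ℓ))) *
            Real.exp (-(ε / 2) * (cnt w d - ℓ * p d)) := by
          rw [← Real.exp_add]
          refine Real.one_le_exp ?_
          nlinarith
        have h4 : 0 ≤ Real.exp (-(ε / 2 * (ε * ℓ))) *
            (wt p w * Real.exp (ε / 2 * (cnt w d - ℓ * p d))) := by positivity
        nlinarith [mul_le_mul_of_nonneg_left h3 hw]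
    · positivity
  refine (Finset.sum_le_sum fun w _ => h2 w).trans ?_
  rw [← Finset.mul_sum, Finset.sum_add_distrib]
  calc Real.exp (-(ε / 2 * (ε * ℓ))) *
        (∑ w : Fin ℓ → Fin b, wt p w * Real.exp (ε / 2 * (cnt w d - ℓ * p d)) +
          ∑ w : Fin ℓ → Fin b, wt p w * Real.exp (-(ε / 2) * (cnt w d - ℓ * p d)))
      ≤ Real.exp (-(ε / 2 * (ε * ℓ))) * (Real.exp (ℓ * (ε / 2) ^ 2) +
          Real.exp (ℓ * (-(ε / 2)) ^ 2)) := by gcongr
    _ = 2 * Real.exp (-(ε ^ 2 / 4 * ℓ)) := by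
        rw [neg_sq, ← two_mul, mul_left_comm, ← Real.exp_add]
        congr 2
        ring

lemma wt_le {b ℓ : ℕ} {p : Fin b → ℝ} (hp : IsProb p) {ε : ℝ} (w : Fin ℓ → Fin b)
    (hw : ∀ d, |cnt w d - ℓ * p d| ≤ ε * ℓ) :
    wt p w ≤ Real.exp (-(ℓ * ((∑ d, Real.negMulLog (p d)) - ε * ∑ d, -Real.log (p d)))) := by
  by_cases h0 : wt p w = 0
  · rw [h0]
    exact (Real.exp_pos _).le
  have hpos : ∀ i, 0 < p (w i) := by
    intro i
    refine lt_of_le_of_ne (hp.1 _) fun h => h0 ?_
    unfold wt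
    exact Finset.prod_eq_zero (Finset.mem_univ i) h.symm
  have h1 : wt p w = Real.exp (∑ i, Real.log (p (w i))) := by
    rw [Real.exp_sum]
    unfold wt
    exact Finset.prod_congr rfl fun i _ => (Real.exp_log (hpos i)).symm
  have h2 : ∑ i, Real.log (p (w i)) = ∑ d, cnt w d * Real.log (p d) := by
    have h3 : ∀ i, Real.log (p (w i)) = ∑ d, if w i = d then Real.log (p d) else 0 := by
      intro i
      rw [Finset.sum_ite_eq Finset.univ (w i)]
      simp
    simp only [h3]
    rw [Finset.sum_comm]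
    refine Finset.sum_congr rfl fun d _ => ?_
    rw [← Finset.sum_filter, Finset.sum_const, nsmul_eq_mul]
    rfl
  rw [h1, h2]
  refine Real.exp_le_exp.2 ?_
  have h4 : -(ℓ * ((∑ d, Real.negMulLog (p d)) - ε * ∑ d, -Real.log (p d))) =
      ∑ d, (ℓ * p d - ε * ℓ) * Real.log (p d) := by
    rw [Finset.mul_sum, ← Finset.sum_sub_distrib, Finset.mul_sum, ← Finset.sum_neg_distrib]
    refine Finset.sum_congr rfl fun d _ => ?_
    rw [Real.negMulLog]
    ring
  rw [h4]
  refine Finset.sum_le_sum fun d _ => ?_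
  have h5 : Real.log (p d) ≤ 0 := Real.log_nonpos (hp.1 d) (p_le_one hp d)
  have h6 := (abs_le.1 (hw d)).1
  nlinarith

end LowAux

open LowAux in
theorem t_low : S_low := by
  classical
  intro b hb p hp s ε hs hε
  have hb1 : (1 : ℝ) < b := by exact_mod_cast hb
  have hlog : 0 < Real.log b := Real.log_pos hb1
  set H : ℝ := ∑ d, Real.negMulLog (p d) with hH
  set A : ℝ := ∑ d, -Real.log (p d) with hA
  have hA0 : 0 ≤ A := Finset.sum_nonneg fun d _ =>
    neg_nonneg.2 (Real.log_nonpos (hp.1 d) (p_le_one hp d))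
  have hsH : s * Real.log b < H := by
    unfold ent at hs
    rwa [lt_div_iff₀ hlog] at hs
  set γ : ℝ := (H - s * Real.log b) / 2 with hγ
  have hγ0 : 0 < γ := by rw [hγ]; linarith
  set η : ℝ := min (min ε 1) (γ / (A + 1)) with hη
  have hη0 : 0 < η := lt_min (lt_min hε one_pos) (by positivity)
  have hηε : η ≤ ε := (min_le_left _ _).trans (min_le_left _ _)
  have hη1 : η ≤ 1 := (min_le_left _ _).trans (min_le_right _ _)
  have hηA : η * A ≤ γ := by
    have h1 : η ≤ γ / (A + 1) := min_le_right _ _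
    have h2 : η * (A + 1) ≤ γ := by rwa [le_div_iff₀ (by positivity)] at h1
    nlinarith
  -- the length
  have e1 : ∀ᶠ ℓ : ℕ in atTop, 2 * b * Real.exp (-(η ^ 2 / 4 * ℓ)) < 1 / 2 := by
    have h1 : Tendsto (fun ℓ : ℕ => η ^ 2 / 4 * (ℓ : ℝ)) atTop atTop :=
      tendsto_natCast_atTop_atTop.const_mul_atTop (by positivity)
    have h2 := (Real.tendsto_exp_neg_atTop_nhds_zero.comp h1).const_mul (2 * (b : ℝ))
    rw [mul_zero] at h2
    exact h2.eventually_lt_const (by norm_num)
  have e2 : ∀ᶠ ℓ : ℕ in atTop, Real.log 2 ≤ γ * (ℓ : ℝ) :=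
    (tendsto_natCast_atTop_atTop.const_mul_atTop hγ0).eventually_ge_atTop _
  obtain ⟨ℓ, h1, h2, h3⟩ := (e1.and (e2.and (eventually_ge_atTop 1))).exists
  refine ⟨ℓ, h3, Finset.univ.filter fun w : Fin ℓ → Fin b =>
    ∀ d, |cnt w d - ℓ * p d| ≤ η * ℓ, ?_, ?_⟩
  · set G := Finset.univ.filter fun w : Fin ℓ → Fin b => ∀ d, |cnt w d - ℓ * p d| ≤ η * ℓ with hG
    have tot : ∑ w : Fin ℓ → Fin b, wt p w = 1 := by
      unfold wt
      rw [← Fintype.sum_pow, hp.2, one_pow]
    have hsplit : ∀ w : Fin ℓ → Fin b, wt p w ≤ (if w ∈ G then wt p w else 0) +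
        ∑ d, (if η * ℓ < |cnt w d - ℓ * p d| then wt p w else 0) := by
      intro w
      have hnn : 0 ≤ ∑ d, (if η * ℓ < |cnt w d - ℓ * p d| then wt p w else 0) :=
        Finset.sum_nonneg fun d _ => by
          split_ifs
          · exact wt_nonneg hp w
          · exact le_rfl
      by_cases hw : w ∈ G
      · rw [if_pos hw]
        linarith
      · rw [if_neg hw, zero_add]
        have hw' : ∃ d, η * ℓ < |cnt w d - ℓ * p d| := by
          by_contra hcon
          push Not at hcon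
          exact hw (by rw [hG]; exact Finset.mem_filter.2 ⟨Finset.mem_univ _, hcon⟩)
        obtain ⟨d, hd⟩ := hw'
        have h4 := Finset.single_le_sum
          (f := fun d => if η * ℓ < |cnt w d - ℓ * p d| then wt p w else 0)
          (fun d _ => by
            split_ifs
            · exact wt_nonneg hp w
            · exact le_rfl) (Finset.mem_univ d)
        simpa only [if_pos hd] using h4
    have hsum := Finset.sum_le_sum fun (w : Fin ℓ → Fin b) (_ : w ∈ Finset.univ) => hsplit w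
    rw [tot, Finset.sum_add_distrib, Finset.sum_comm, ← Finset.sum_filter] at hsum
    have hbad : ∑ d : Fin b, ∑ w : Fin ℓ → Fin b,
        (if η * ℓ < |cnt w d - ℓ * p d| then wt p w else 0) ≤
        2 * b * Real.exp (-(η ^ 2 / 4 * ℓ)) := by
      refine (Finset.sum_le_sum fun d _ => bad hp d hη0 hη1).trans ?_
      rw [Finset.sum_const, Finset.card_univ, Fintype.card_fin, nsmul_eq_mul]
      refine le_of_eq ?_
      ring
    have hfil : (Finset.univ.filter fun w : Fin ℓ → Fin b => w ∈ G) = G := by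
      ext w
      simp
    rw [hfil] at hsum
    have hgood : ∑ w ∈ G, wt p w ≤ G.card * Real.exp (-(ℓ * (H - η * A))) := by
      rw [← nsmul_eq_mul]
      refine Finset.sum_le_card_nsmul _ _ _ fun w hw => ?_
      exact wt_le hp w (Finset.mem_filter.1 hw).2
    have hhalf : 1 / 2 ≤ G.card * Real.exp (-(ℓ * (H - η * A))) := by linarith
    have hfin : Real.exp (ℓ * (H - η * A)) / 2 ≤ G.card := by
      have h5 := mul_le_mul_of_nonneg_right hhalf (Real.exp_pos (ℓ * (H - η * A))).le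
      rw [mul_assoc, ← Real.exp_add, neg_add_cancel, Real.exp_zero, mul_one] at h5
      linarith
    refine le_trans ?_ hfin
    rw [Real.rpow_def_of_pos (by linarith), le_div_iff₀ two_pos]
    have h8 : Real.exp (Real.log b * (ℓ * s)) * 2 =
        Real.exp (Real.log b * (ℓ * s) + Real.log 2) := by
      rw [Real.exp_add, Real.exp_log two_pos]
    rw [h8]
    refine Real.exp_le_exp.2 ?_
    have hl0 : (0 : ℝ) ≤ ℓ := Nat.cast_nonneg ℓ
    have h6 : H - s * Real.log b = 2 * γ := by rw [hγ]; ring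
    have h7 : γ * ℓ ≤ (H - η * A - s * Real.log b) * ℓ := by
      refine mul_le_mul_of_nonneg_right ?_ hl0
      linarith
    nlinarith
  · intro w hw d
    have h4 := (Finset.mem_filter.1 hw).2 d
    refine le_trans h4 ?_
    exact mul_le_mul_of_nonneg_right hηε (Nat.cast_nonneg ℓ)

end Pool.Agent.R485.MF
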