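import Pool.Agent.R485.MF.Stm

/-! # Project MF: the mass distribution principle for the class `Full` -/

set_option autoImplicit false

open Filter Topology MeasureTheory Set
open Pool.Agent.R331.MT
open scoped ENNReal

namespace Pool.Agent.R485.MF

namespace Mass

lemma wt_eq (s : ℝ) (p : ℕ × ℕ) : wt s p = ENNReal.ofReal ((1 / 2 ^ p.1) ^ s) := by
  unfold wt
  rw [ENNReal.ofReal_rpow_of_pos (by positivity)]

lemma part_sub (L : ℕ × ℕ) (a i : ℕ) (hi : i < 2 ^ a) :
    D (L.1 + a, L.2 * 2 ^ a + i) ⊆ D L := by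
  intro x hx
  unfold D at hx ⊢
  obtain ⟨h1, h2⟩ := hx
  simp only at h1 h2
  have hi' : (i : ℝ) + 1 ≤ 2 ^ a := by exact_mod_cast hi
  have p1 : (0 : ℝ) < 2 ^ L.1 := by positivity
  have p2 : (0 : ℝ) < 2 ^ a := by positivity
  constructor
  · refine le_trans ?_ h1
    rw [div_le_div_iff₀ p1 (by positivity), pow_add]
    push_cast
    nlinarith [mul_pos p1 p2, (Nat.cast_nonneg i : (0 : ℝ) ≤ i)]
  · refine lt_of_lt_of_le h2 ?_
    rw [div_le_div_iff₀ (by positivity) p1, pow_add]
    push_cast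
    nlinarith [mul_pos p1 p2]

lemma part_eq (L : ℕ × ℕ) (a i : ℕ) :
    D (L.1 + a, L.2 * 2 ^ a + i) =
      Ico (((L.2 * 2 ^ a + i : ℕ) : ℝ) / 2 ^ (L.1 + a))
        (((L.2 * 2 ^ a + i : ℕ) : ℝ) / 2 ^ (L.1 + a) + 1 / 2 ^ (L.1 + a)) := by
  unfold D
  rw [add_div]

lemma D_eq' (J : ℕ × ℕ) : D J = Ico ((J.2 : ℝ) / 2 ^ J.1) ((J.2 : ℝ) / 2 ^ J.1 + 1 / 2 ^ J.1) := by
  unfold D
  rw [add_div]

open Classical in
lemma count (L J : ℕ × ℕ) (a : ℕ) (hj : J.1 ≤ L.1 + a) :
    ((Finset.range (2 ^ a)).filter fun i =>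
      (D (L.1 + a, L.2 * 2 ^ a + i) ∩ D J).Nonempty).card ≤ 2 ^ (L.1 + a - J.1) := by
  classical
  have h1 : ((Finset.range (2 ^ a)).filter fun i =>
      (D (L.1 + a, L.2 * 2 ^ a + i) ∩ D J).Nonempty).image (fun i => L.2 * 2 ^ a + i) ⊆
      Finset.Ico (J.2 * 2 ^ (L.1 + a - J.1)) (J.2 * 2 ^ (L.1 + a - J.1) + 2 ^ (L.1 + a - J.1)) := by
    intro m hm
    rw [Finset.mem_image] at hm
    obtain ⟨i, hi, rfl⟩ := hm
    rw [Finset.mem_filter] at hi
    obtain ⟨x, hx1, hx2⟩ := hi.2
    have hx := D_nonneg hx2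
    have e1 : L.2 * 2 ^ a + i = idx (L.1 + a) x := (mem_D_iff hx _ _).1 hx1
    have e2 : J.2 = idx J.1 x := (mem_D_iff hx _ _).1 hx2
    rw [idx_div hj, ← e1] at e2
    have hq : 0 < 2 ^ (L.1 + a - J.1) := by positivity
    rw [Finset.mem_Ico]
    have h3 := Nat.div_add_mod (L.2 * 2 ^ a + i) (2 ^ (L.1 + a - J.1))
    have h4 := Nat.mod_lt (L.2 * 2 ^ a + i) hq
    rw [← e2] at h3
    have h5 : 2 ^ (L.1 + a - J.1) * J.2 = J.2 * 2 ^ (L.1 + a - J.1) := mul_comm _ _
    rw [h5] at h3
    constructor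
    · rw [← h3]; exact Nat.le_add_right _ _
    · rw [← h3]; exact Nat.add_lt_add_left h4 _
  have h2 := Finset.card_le_card h1
  rw [Finset.card_image_of_injective _ (fun i j h => by simpa using h), Nat.card_Ico,
    Nat.add_sub_cancel_left] at h2
  exact h2

end Mass

open Mass

theorem t_mass : S_mass := by
  classical
  intro s hs0 hs1 U C hC hyp L hL T hT
  -- the number of parts
  obtain ⟨a, ha⟩ : ∃ a : ℕ, C ≤ ((2 : ℝ) ^ (1 - s)) ^ a := by
    have h1 : (1 : ℝ) < 2 ^ (1 - s) := Real.one_lt_rpow (by norm_num) (by linarith)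
    obtain ⟨a, ha⟩ := pow_unbounded_of_one_lt C h1
    exact ⟨a, ha.le⟩
  have ha' : C * (2 ^ a : ℝ) ^ s ≤ 2 ^ a := by
    have h1 : ((2 : ℝ) ^ (1 - s)) ^ a * ((2 : ℝ) ^ a) ^ s = 2 ^ a := by
      rw [← Real.rpow_natCast (2 ^ (1 - s)) a, ← Real.rpow_mul (by norm_num),
        ← Real.rpow_natCast 2 a, ← Real.rpow_mul (by norm_num), ← Real.rpow_add (by norm_num)]
      congr 1
      ring
    calc C * (2 ^ a : ℝ) ^ s ≤ ((2 : ℝ) ^ (1 - s)) ^ a * ((2 : ℝ) ^ a) ^ s :=
          mul_le_mul_of_nonneg_right ha (by positivity)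
      _ = 2 ^ a := h1
  by_cases hbig : ∃ J ∈ T, D L ⊆ D J
  · obtain ⟨J, hJ, hLJ⟩ := hbig
    have h1 := D_level hLJ
    have h2 : wt s L ≤ wt s J := by
      rw [wt_eq, wt_eq]
      apply ENNReal.ofReal_le_ofReal
      apply Real.rpow_le_rpow (by positivity) _ hs0.le
      apply one_div_le_one_div_of_le (by positivity)
      exact pow_le_pow_right₀ (by norm_num) h1
    refine h2.trans ?_
    unfold W
    refine le_trans (le_of_eq ?_) (ENNReal.le_tsum J)
    rw [Set.indicator_of_mem hJ]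
  push Not at hbig
  -- the measures
  have hpart : ∀ i : ℕ, i < 2 ^ a → ∃ μ : Measure ℝ, μ univ = 1 ∧
      μ (U ∩ D (L.1 + a, L.2 * 2 ^ a + i))ᶜ = 0 ∧
      ∀ y r : ℝ, 0 < r → r ≤ 1 / 2 ^ (L.1 + a) →
        μ (Ico y (y + r)) ≤ ENNReal.ofReal (C * (r / (1 / 2 ^ (L.1 + a))) ^ s) := by
    intro i hi
    have h1 := (part_sub L a i hi).trans hL
    rw [part_eq] at h1 ⊢
    have h0 : (0 : ℝ) < 1 / 2 ^ (L.1 + a) := by positivity
    refine hyp _ _ (by positivity) h0 ?_
    by_contra hcon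
    push Not at hcon
    set x := ((L.2 * 2 ^ a + i : ℕ) : ℝ) / 2 ^ (L.1 + a) with hx
    have hx0 : 0 ≤ x := by positivity
    have h2 : max x 1 ∈ Ico x (x + 1 / 2 ^ (L.1 + a)) :=
      ⟨le_max_left _ _, max_lt (by linarith) hcon⟩
    exact absurd (h1 h2).2 (not_lt.2 (le_max_right _ _))
  choose! μ hμ1 hμ2 hμ3 using hpart
  have hwL : wt s L ≠ 0 := by
    rw [wt_eq]
    have : (0 : ℝ) < (1 / 2 ^ L.1) ^ s := by positivity
    simpa using this
  -- the mass of a dyadic interval
  have claim : ∀ J ∈ T, wt s L * ∑ i ∈ Finset.range (2 ^ a), μ i (D J) ≤ 2 ^ a * wt s J := by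
    intro J hJ
    by_cases hne : (D J ∩ D L).Nonempty
    · obtain ⟨x, hxJ, hxL⟩ := hne
      have hlev : L.1 < J.1 := by
        by_contra hcon
        push Not at hcon
        exact hbig J hJ (D_nested hxL hxJ hcon)
      have hx0 := D_nonneg hxJ
      suffices h : ∑ i ∈ Finset.range (2 ^ a), μ i (D J) ≤
          ENNReal.ofReal (2 ^ a * (2 ^ L.1 / 2 ^ J.1) ^ s) by
        calc wt s L * ∑ i ∈ Finset.range (2 ^ a), μ i (D J)
            ≤ wt s L * ENNReal.ofReal (2 ^ a * (2 ^ L.1 / 2 ^ J.1) ^ s) := by gcongr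
          _ = 2 ^ a * wt s J := by
            rw [wt_eq, wt_eq, ← ENNReal.ofReal_mul (by positivity)]
            have e : ((1 : ℝ) / 2 ^ L.1) ^ s * (2 ^ a * (2 ^ L.1 / 2 ^ J.1) ^ s) =
                2 ^ a * (1 / 2 ^ J.1) ^ s := by
              rw [mul_left_comm, ← Real.mul_rpow (by positivity) (by positivity)]
              congr 2
              field_simp
            rw [e, ENNReal.ofReal_mul (by positivity), ENNReal.ofReal_pow (by norm_num)]
            norm_num
      by_cases hj : J.1 ≤ L.1 + a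
      · have h1 : ∑ i ∈ Finset.range (2 ^ a), μ i (D J) ≤
            ∑ i ∈ (Finset.range (2 ^ a)).filter (fun i =>
              (D (L.1 + a, L.2 * 2 ^ a + i) ∩ D J).Nonempty), (1 : ℝ≥0∞) := by
          rw [Finset.sum_filter]
          apply Finset.sum_le_sum
          intro i hi
          have hi' := Finset.mem_range.1 hi
          split_ifs with h
          · rw [← hμ1 i hi']
            exact measure_mono (subset_univ _)
          · have : D J ⊆ (U ∩ D (L.1 + a, L.2 * 2 ^ a + i))ᶜ := by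
              intro y hy hy2
              exact h ⟨y, hy2.2, hy⟩
            exact (measure_mono this).trans (hμ2 i hi').le
        refine h1.trans ?_
        rw [Finset.sum_const, nsmul_eq_mul, mul_one]
        have h2 := count L J a hj
        have h3 : ((2 : ℝ) ^ (L.1 + a - J.1)) ≤ 2 ^ a * (2 ^ L.1 / 2 ^ J.1) ^ s := by
          have e1 : (2 : ℝ) ^ (L.1 + a - J.1) = 2 ^ a * (2 ^ L.1 / 2 ^ J.1) := by
            rw [eq_comm, mul_div_assoc', div_eq_iff (by positivity), ← pow_add, ← pow_add]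
            congr 1
            omega
          rw [e1]
          apply mul_le_mul_of_nonneg_left _ (by positivity)
          have e2 : (0 : ℝ) < 2 ^ L.1 / 2 ^ J.1 := by positivity
          have e3 : (2 : ℝ) ^ L.1 / 2 ^ J.1 ≤ 1 := by
            rw [div_le_one (by positivity)]
            exact pow_le_pow_right₀ (by norm_num) hlev.le
          calc (2 : ℝ) ^ L.1 / 2 ^ J.1 = (2 ^ L.1 / 2 ^ J.1) ^ (1 : ℝ) := (Real.rpow_one _).symm
            _ ≤ _ := Real.rpow_le_rpow_of_exponent_ge e2 e3 hs1.le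
        calc ((((Finset.range (2 ^ a)).filter (fun i =>
              (D (L.1 + a, L.2 * 2 ^ a + i) ∩ D J).Nonempty)).card : ℕ) : ℝ≥0∞)
            ≤ ((2 ^ (L.1 + a - J.1) : ℕ) : ℝ≥0∞) := by exact_mod_cast h2
          _ = ENNReal.ofReal ((2 : ℝ) ^ (L.1 + a - J.1)) := by
            rw [ENNReal.ofReal_pow (by norm_num)]
            push_cast
            norm_num
          _ ≤ _ := ENNReal.ofReal_le_ofReal h3
      · push Not at hj
        -- a single part
        set i₀ : ℕ := idx (L.1 + a) x - L.2 * 2 ^ a with hi₀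
        have hLi : L.2 = idx (L.1 + a) x / 2 ^ a := by
          have e1 : L.2 = idx L.1 x := (mem_D_iff hx0 _ _).1 hxL
          have e2 := idx_div (x := x) (show L.1 ≤ L.1 + a by omega)
          rw [e1, e2]
          congr 2
          omega
        have hmod := Nat.div_add_mod (idx (L.1 + a) x) (2 ^ a)
        have hml := Nat.mod_lt (idx (L.1 + a) x) (show 0 < 2 ^ a by positivity)
        rw [← hLi] at hmod
        have hii : idx (L.1 + a) x = L.2 * 2 ^ a + i₀ := by
          have : L.2 * 2 ^ a ≤ idx (L.1 + a) x := by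
            rw [mul_comm]; omega
          omega
        have hi0 : i₀ < 2 ^ a := by
          have : L.2 * 2 ^ a = 2 ^ a * L.2 := mul_comm _ _
          omega
        have hxK : x ∈ D (L.1 + a, L.2 * 2 ^ a + i₀) := by
          rw [← hii]
          exact mem_D_idx hx0 _
        have hJK : D J ⊆ D (L.1 + a, L.2 * 2 ^ a + i₀) := D_nested hxJ hxK hj.le
        have h1 : ∑ i ∈ Finset.range (2 ^ a), μ i (D J) = μ i₀ (D J) := by
          refine Finset.sum_eq_single i₀ ?_ ?_
          · intro i hi hne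
            have hi' := Finset.mem_range.1 hi
            have : D J ⊆ (U ∩ D (L.1 + a, L.2 * 2 ^ a + i))ᶜ := by
              intro y hy hy2
              have hy0 := D_nonneg hy
              have e1 := (mem_D_iff hy0 _ _).1 hy2.2
              have e2 := (mem_D_iff hy0 _ _).1 (hJK hy)
              apply hne
              have : L.2 * 2 ^ a + i = L.2 * 2 ^ a + i₀ := by rw [e1, e2]
              omega
            exact le_antisymm ((measure_mono this).trans (hμ2 i hi').le) zero_le
          · intro h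
            exact absurd (Finset.mem_range.2 hi0) h
        rw [h1, D_eq']
        have hr : (1 : ℝ) / 2 ^ J.1 ≤ 1 / 2 ^ (L.1 + a) := by
          apply one_div_le_one_div_of_le (by positivity)
          exact pow_le_pow_right₀ (by norm_num) hj.le
        refine (hμ3 i₀ hi0 _ _ (by positivity) hr).trans ?_
        apply ENNReal.ofReal_le_ofReal
        have e1 : (1 : ℝ) / 2 ^ J.1 / (1 / 2 ^ (L.1 + a)) = 2 ^ a * (2 ^ L.1 / 2 ^ J.1) := by
          rw [pow_add]
          field_simp
        rw [e1, Real.mul_rpow (by positivity) (by positivity), ← mul_assoc]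
        exact mul_le_mul_of_nonneg_right ha' (by positivity)
    · have h1 : ∑ i ∈ Finset.range (2 ^ a), μ i (D J) = 0 := by
        apply Finset.sum_eq_zero
        intro i hi
        have hi' := Finset.mem_range.1 hi
        have : D J ⊆ (U ∩ D (L.1 + a, L.2 * 2 ^ a + i))ᶜ := by
          intro y hy hy2
          exact hne ⟨y, hy, part_sub L a i hi' hy2.2⟩
        exact le_antisymm ((measure_mono this).trans (hμ2 i hi').le) zero_le
      rw [h1, mul_zero]
      exact zero_le
  -- summation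
  have htot : (2 : ℝ≥0∞) ^ a ≤ ∑' J : T, ∑ i ∈ Finset.range (2 ^ a), μ i (D J.1) := by
    calc (2 : ℝ≥0∞) ^ a = ∑ i ∈ Finset.range (2 ^ a), (1 : ℝ≥0∞) := by
          rw [Finset.sum_const, Finset.card_range, nsmul_eq_mul, mul_one]
          push_cast
          rfl
      _ ≤ ∑ i ∈ Finset.range (2 ^ a), ∑' J : T, μ i (D J.1) := by
          apply Finset.sum_le_sum
          intro i hi
          have hi' := Finset.mem_range.1 hi
          have h1 : μ i univ ≤ μ i (⋃ J : T, D J.1) := by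
            have hsub : (univ : Set ℝ) ⊆ (⋃ J : T, D J.1) ∪
                (U ∩ D (L.1 + a, L.2 * 2 ^ a + i))ᶜ := by
              intro y _
              by_cases hy : y ∈ U ∩ D (L.1 + a, L.2 * 2 ^ a + i)
              · left
                obtain ⟨p, hp, hyp⟩ := hT y (part_sub L a i hi' hy.2) hy.1
                exact mem_iUnion.2 ⟨⟨p, hp⟩, hyp⟩
              · right
                exact hy
            refine (measure_mono hsub).trans ((measure_union_le _ _).trans ?_)
            rw [hμ2 i hi', add_zero]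
          rw [← hμ1 i hi']
          exact h1.trans (measure_iUnion_le _)
      _ = ∑' J : T, ∑ i ∈ Finset.range (2 ^ a), μ i (D J.1) := by
          rw [Summable.tsum_finsetSum (fun _ _ => ENNReal.summable)]
  have hfin : wt s L * 2 ^ a ≤ 2 ^ a * W s T := by
    calc wt s L * 2 ^ a ≤ wt s L * ∑' J : T, ∑ i ∈ Finset.range (2 ^ a), μ i (D J.1) := by gcongr
      _ = ∑' J : T, wt s L * ∑ i ∈ Finset.range (2 ^ a), μ i (D J.1) := ENNReal.tsum_mul_left.symm
      _ ≤ ∑' J : T, 2 ^ a * wt s J.1 := ENNReal.tsum_le_tsum fun J => claim J.1 J.2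
      _ = 2 ^ a * ∑' J : T, wt s J.1 := ENNReal.tsum_mul_left
      _ = 2 ^ a * W s T := by
          unfold W
          rw [← tsum_subtype]
  rw [mul_comm] at hfin
  have h2a : (2 : ℝ≥0∞) ^ a ≠ 0 := by positivity
  have h2t : (2 : ℝ≥0∞) ^ a ≠ ⊤ := ENNReal.pow_ne_top (by norm_num)
  exact (ENNReal.mul_le_mul_iff_right h2a h2t).1 hfin

end Pool.Agent.R485.MF
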