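import Pool.Agent.R485.MF.Stm2

/-! # Project MF, piece PROB: frequency vectors are probability vectors -/

set_option autoImplicit false

open Filter Topology Set

namespace Pool.Agent.R485.MF

namespace ProbX

lemma sum_count (b : ℕ) (l : List ℕ) (h : ∀ x ∈ l, x < b) :
    ∑ d : Fin b, l.count (d : ℕ) = l.length := by
  induction l with
  | nil => simp
  | cons x l ih =>
    have hx : x < b := h x (List.mem_cons_self)
    have hl : ∀ y ∈ l, y < b := fun y hy => h y (List.mem_cons_of_mem _ hy)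
    have h1 : ∀ d : Fin b, (x :: l).count (d : ℕ) = l.count (d : ℕ)
        + if (⟨x, hx⟩ : Fin b) = d then 1 else 0 := by
      intro d
      rw [List.count_cons]
      congr 1
      by_cases hd : x = (d : ℕ)
      · have h2 : (⟨x, hx⟩ : Fin b) = d := Fin.ext hd
        rw [if_pos h2, if_pos (by simp [hd])]
      · have h2 : ¬ (⟨x, hx⟩ : Fin b) = d := fun h3 => hd (by rw [← h3])
        rw [if_neg h2, if_neg (by simp [hd])]
    rw [Finset.sum_congr rfl fun d _ => h1 d, Finset.sum_add_distrib, ih hl, Finset.sum_ite_eq]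
    simp

lemma fr_nonneg (b m d : ℕ) : 0 ≤ fr b m d := by
  unfold fr
  positivity

lemma fr_le_one (b m d : ℕ) : fr b m d ≤ 1 := by
  unfold fr
  refine div_le_one_of_le₀ ?_ (Nat.cast_nonneg _)
  exact_mod_cast List.count_le_length

lemma fr_prob (b : ℕ) (hb : 2 ≤ b) (m : ℕ) (hm : 0 < m) : IsProb (fun d : Fin b => fr b m d) := by
  refine ⟨fun d => fr_nonneg _ _ _, ?_⟩
  unfold fr
  rw [← Finset.sum_div]
  have h1 := sum_count b (Nat.digits b m) (fun x hx => Nat.digits_lt_base (by omega) hx)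
  have h2 : 0 < (Nat.digits b m).length :=
    List.length_pos_of_ne_nil (Nat.digits_ne_nil_iff_ne_zero.mpr hm.ne')
  have h3 : ∑ d : Fin b, (((Nat.digits b m).count (d : ℕ) : ℕ) : ℝ) = ((Nat.digits b m).length : ℝ) := by
    exact_mod_cast h1
  rw [h3]
  exact div_self (by exact_mod_cast h2.ne')

lemma prob_of_approx {b : ℕ} (p : Fin b → ℝ)
    (h : ∀ ε : ℝ, 0 < ε → ∃ q : Fin b → ℝ, IsProb q ∧ ∀ d, |q d - p d| < ε) : IsProb p := by
  constructor
  · intro d
    by_contra hd
    push Not at hd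
    obtain ⟨q, hq, hq2⟩ := h (-p d) (by linarith)
    have h1 := hq.1 d
    have h2 := hq2 d
    have h3 := le_abs_self (q d - p d)
    linarith
  · by_contra hne
    have hδ : 0 < |∑ d, p d - 1| := abs_pos.mpr (sub_ne_zero.mpr hne)
    obtain ⟨q, hq, hq2⟩ := h (|∑ d, p d - 1| / (b + 1)) (by positivity)
    have h1 : |∑ d, p d - 1| ≤ b * (|∑ d, p d - 1| / (b + 1)) := by
      calc |∑ d, p d - 1| = |∑ d, (p d - q d)| := by rw [Finset.sum_sub_distrib, hq.2]
        _ ≤ ∑ d, |p d - q d| := Finset.abs_sum_le_sum_abs _ _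
        _ ≤ ∑ _d : Fin b, |∑ d, p d - 1| / (b + 1) := by
            refine Finset.sum_le_sum fun d _ => ?_
            rw [abs_sub_comm]
            exact (hq2 d).le
        _ = b * (|∑ d, p d - 1| / (b + 1)) := by
            rw [Finset.sum_const, Finset.card_univ, Fintype.card_fin, nsmul_eq_mul]
    have h2 : (b : ℝ) * (|∑ d, p d - 1| / (b + 1)) < |∑ d, p d - 1| := by
      rw [mul_div_assoc', div_lt_iff₀ (by positivity)]
      nlinarith
    linarith

end ProbX

open ProbX in
theorem t_prob : S_prob := by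
  intro b hb
  refine ⟨fun m hm => fr_prob b hb m hm, ?_, ?_⟩
  · intro c hc x hx p hp
    refine prob_of_approx p fun ε hε => ?_
    have h1 : ∀ᶠ n in atTop, 1 ≤ x * c n := by
      have h2 : Tendsto (fun n => x * c n) atTop atTop := hc.const_mul_atTop hx
      exact h2.eventually_ge_atTop 1
    obtain ⟨n, hn1, hn2⟩ := ((hp ε hε).and_eventually h1).exists
    refine ⟨fun d => fr b ⌊x * c n⌋₊ d, fr_prob b hb _ ?_, hn1⟩
    exact Nat.floor_pos.mpr hn2
  · intro c hc x hx ε hε hne
    rw [Filter.not_eventually] at hne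
    have hK : IsCompact ((Icc (0 : Fin b → ℝ) 1) ∩ {v | ∃ d, ε ≤ |v d - 1 / b|}) := by
      refine isCompact_Icc.inter_right ?_
      have h1 : {v : Fin b → ℝ | ∃ d, ε ≤ |v d - 1 / b|} = ⋃ d : Fin b, {v : Fin b → ℝ | ε ≤ |v d - 1 / b|} := by
        ext v
        simp
      rw [h1]
      refine isClosed_iUnion_of_finite fun d => ?_
      exact isClosed_le continuous_const (((continuous_apply d).sub continuous_const).abs)
    have hfr : ∃ᶠ n in atTop, (fun d : Fin b => fr b ⌊x * c n⌋₊ d) ∈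
        ((Icc (0 : Fin b → ℝ) 1) ∩ {v | ∃ d, ε ≤ |v d - 1 / b|}) := by
      refine hne.mono fun n hn => ?_
      push Not at hn
      exact ⟨⟨fun d => fr_nonneg _ _ _, fun d => fr_le_one _ _ _⟩, hn⟩
    obtain ⟨p, hp, hcl⟩ := hK.exists_mapClusterPt_of_frequently hfr
    refine ⟨p, hp.2, fun δ hδ => ?_⟩
    refine (hcl.frequently (Metric.ball_mem_nhds p hδ)).mono fun n hn d => ?_
    have h1 : dist ((fun d : Fin b => fr b ⌊x * c n⌋₊ d) d) (p d) < δ :=
      (dist_le_pi_dist _ p d).trans_lt hn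
    rw [Real.dist_eq] at h1
    exact h1

end Pool.Agent.R485.MF
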