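import Pool.Agent.R331.MT.Two

/-! # Project MF: digit frequencies of `⌊x c_n⌋`, definitions and statements of the pieces -/

set_option autoImplicit false

open Filter Topology MeasureTheory Set
open Pool.Agent.R331.MT
open scoped ENNReal

namespace Pool.Agent.R485.MF

/-- the frequency of the digit `d` in the base `b` expansion of `m` -/
noncomputable def fr (b m d : ℕ) : ℝ :=
  ((Nat.digits b m).count d : ℝ) / ((Nat.digits b m).length : ℝ)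

/-- `p` is a probability vector -/
def IsProb {b : ℕ} (p : Fin b → ℝ) : Prop := (∀ d, 0 ≤ p d) ∧ ∑ d, p d = 1

/-- the entropy in base `b` -/
noncomputable def ent {b : ℕ} (p : Fin b → ℝ) : ℝ :=
  (∑ d, Real.negMulLog (p d)) / Real.log b

/-- MF-LOW: many words with digit counts close to `ℓ p` -/
def S_low : Prop := ∀ (b : ℕ), 2 ≤ b → ∀ p : Fin b → ℝ, IsProb p → ∀ s ε : ℝ, s < ent p → 0 < ε →
  ∃ ℓ : ℕ, 1 ≤ ℓ ∧ ∃ B : Finset (Fin ℓ → Fin b), (b : ℝ) ^ ((ℓ : ℝ) * s) ≤ B.card ∧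
    ∀ w ∈ B, ∀ d : Fin b, |((Finset.univ.filter fun i => w i = d).card : ℝ) - ℓ * p d| ≤ ε * ℓ

/-- MF-UP: few integers with digit frequencies close to `p` -/
def S_up : Prop := ∀ (b : ℕ), 2 ≤ b → ∀ p : Fin b → ℝ, IsProb p → ∀ η : ℝ, 0 < η →
  ∃ ε : ℝ, 0 < ε ∧ ∃ C : ℝ, 0 ≤ C ∧ ∀ X : ℝ, 1 ≤ X →
    (({m : ℕ | (0 < m ∧ ∀ d : Fin b, |fr b m d - p d| ≤ ε) ∧ (m : ℝ) ≤ X}.ncard : ℕ) : ℝ) ≤
      C * X ^ (ent p + η)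

/-- MF-DIM: the dimension of the set of `x` with `⌊x c_n⌋ ∈ P` infinitely often -/
def S_dim : Prop := ∀ (P : Set ℕ) (s C : ℝ), 0 ≤ s → 0 ≤ C →
  (∀ X : ℝ, 1 ≤ X → (({m : ℕ | m ∈ P ∧ (m : ℝ) ≤ X}.ncard : ℕ) : ℝ) ≤ C * X ^ s) →
  ∀ c : ℕ → ℝ, (∀ n, 0 < c n) → (∀ t : ℝ, 0 < t → Summable fun n => (c n) ^ (-t)) →
    dimH {x : ℝ | 0 < x ∧ ∃ᶠ n in atTop, ⌊x * c n⌋₊ ∈ P} ≤ ENNReal.ofReal s

/-- MF-COMB: well distributed sets of integers with digit frequencies close to `p` -/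
def S_comb : Prop := ∀ (b : ℕ), 2 ≤ b → ∀ p : Fin b → ℝ, IsProb p → ∀ s ε : ℝ, 0 < s → s < ent p →
  0 < ε → ∃ C : ℝ, 1 ≤ C ∧ ∀ κ : ℝ, 0 < κ → ∃ Y₀ : ℝ, ∀ a Y : ℝ, Y₀ ≤ Y → 0 < a → a ≤ κ * Y →
    ∃ M : Finset ℕ, M.Nonempty ∧
      (∀ m ∈ M, a ≤ m ∧ (m : ℝ) + 1 ≤ a + Y ∧ ∀ d : Fin b, |fr b m d - p d| < ε) ∧
      ∀ z X : ℝ, 1 ≤ X → X ≤ Y →
        ((M.filter fun m : ℕ => z ≤ (m : ℝ) ∧ (m : ℝ) ≤ z + X).card : ℝ) ≤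
          C * (X / Y) ^ s * M.card

/-- MF-MASS: a mass distribution principle for the class `Full` -/
def S_mass : Prop := ∀ s : ℝ, 0 < s → s < 1 → ∀ (U : Set ℝ) (C : ℝ), 0 < C →
  (∀ x δ : ℝ, 0 ≤ x → 0 < δ → x + δ ≤ 1 → ∃ μ : Measure ℝ, μ univ = 1 ∧
    μ (U ∩ Ico x (x + δ))ᶜ = 0 ∧
    ∀ y r : ℝ, 0 < r → r ≤ δ → μ (Ico y (y + r)) ≤ ENNReal.ofReal (C * (r / δ) ^ s)) →
  Full s U

end Pool.Agent.R485.MF
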