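import Pool.Agent.R485.MF.Stm

/-!
# MF-UP: few integers have digit frequencies close to `p` (helper619 for helper485)
-/

set_option autoImplicit false

open Finset

namespace Pool.Agent.R485.MF

namespace Upx

/-- the weight of an integer -/
noncomputable def T (b : ℕ) (g : ℕ → ℝ) (m : ℕ) : ℝ :=
  Real.exp (-((Nat.digits b m).map g).sum)

theorem T_pos (b : ℕ) (g : ℕ → ℝ) (m : ℕ) : 0 < T b g m := Real.exp_pos _

theorem T_zero (b : ℕ) (g : ℕ → ℝ) : T b g 0 = 1 := by simp [T]

theorem T_rec {b : ℕ} (hb : 1 < b) (g : ℕ → ℝ) {m : ℕ} (hm : 0 < m) :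
    T b g m = Real.exp (-g (m % b)) * T b g (m / b) := by
  unfold T
  rw [Nat.digits_def' hb hm, List.map_cons, List.sum_cons, ← Real.exp_add]
  congr 1
  ring

theorem sum_split (b K : ℕ) (hb : 0 < b) (F : ℕ → ℕ → ℝ) :
    ∑ m ∈ range (K * b), F (m % b) (m / b) = ∑ q ∈ range K, ∑ d ∈ range b, F d q := by
  rw [← Finset.sum_product']
  refine Finset.sum_nbij' (fun m => (m / b, m % b)) (fun x => b * x.1 + x.2) ?_ ?_ ?_ ?_ ?_
  · intro m hm
    rw [Finset.mem_range] at hm
    simp only [Finset.mem_product, Finset.mem_range]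
    exact ⟨Nat.div_lt_of_lt_mul (by rwa [mul_comm]), Nat.mod_lt _ hb⟩
  · rintro ⟨q, d⟩ hx
    simp only [Finset.mem_product, Finset.mem_range] at hx ⊢
    calc b * q + d < b * q + b := by omega
      _ = (q + 1) * b := by ring
      _ ≤ K * b := Nat.mul_le_mul_right b hx.1
  · intro m _
    show b * (m / b) + m % b = m
    exact Nat.div_add_mod m b
  · rintro ⟨q, d⟩ hx
    simp only [Finset.mem_product, Finset.mem_range] at hx
    show ((b * q + d) / b, (b * q + d) % b) = (q, d)
    rw [Nat.mul_add_div hb, Nat.div_eq_of_lt hx.2, Nat.mul_add_mod, Nat.mod_eq_of_lt hx.2,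
      add_zero]
  · intro m _
    rfl

theorem sum_T {b : ℕ} (hb : 1 < b) (g : ℕ → ℝ) (hg : ∑ d ∈ range b, Real.exp (-g d) = 1)
    (N : ℕ) : ∑ m ∈ range (b ^ N), T b g m ≤ N + 1 := by
  induction N with
  | zero => simp [T_zero]
  | succ N ih =>
    have h1 : ∀ m ∈ range (b ^ (N + 1)), T b g m ≤
        Real.exp (-g (m % b)) * T b g (m / b) + (if m = 0 then 1 else 0) := by
      intro m _
      by_cases hm : m = 0
      · rw [if_pos hm, hm, T_zero]
        have := mul_pos (Real.exp_pos (-g (0 % b))) (T_pos b g (0 / b))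
        linarith
      · rw [if_neg hm, add_zero, T_rec hb g (Nat.pos_of_ne_zero hm)]
    refine (Finset.sum_le_sum h1).trans ?_
    rw [Finset.sum_add_distrib, pow_succ,
      sum_split b (b ^ N) (by omega) (fun d q => Real.exp (-g d) * T b g q)]
    have h2 : ∑ q ∈ range (b ^ N), ∑ d ∈ range b, Real.exp (-g d) * T b g q =
        ∑ q ∈ range (b ^ N), T b g q := by
      refine Finset.sum_congr rfl fun q _ => ?_
      rw [← Finset.sum_mul, hg, one_mul]
    rw [h2]
    have h3 : ∑ m ∈ range (b ^ N * b), (if m = 0 then (1 : ℝ) else 0) ≤ 1 := by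
      rw [Finset.sum_ite_eq']
      split_ifs <;> norm_num
    push_cast
    linarith

theorem sum_count (b : ℕ) (g : ℕ → ℝ) (l : List ℕ) (hl : ∀ x ∈ l, x < b) :
    (l.map g).sum = ∑ d ∈ range b, (l.count d : ℝ) * g d := by
  induction l with
  | nil => simp
  | cons a l ih =>
    rw [List.map_cons, List.sum_cons, ih fun x hx => hl x (List.mem_cons_of_mem a hx)]
    have ha : a < b := hl a List.mem_cons_self
    have h1 : ∀ d ∈ range b, (((a :: l).count d : ℕ) : ℝ) * g d =
        (l.count d : ℝ) * g d + (if a = d then g d else 0) := by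
      intro d _
      rw [List.count_cons]
      by_cases h : a = d
      · simp [h]
        ring
      · simp [h]
    rw [Finset.sum_congr rfl h1, Finset.sum_add_distrib, Finset.sum_ite_eq,
      if_pos (Finset.mem_range.2 ha)]
    ring

end Upx

open Upx in
/-- MF-UP -/
theorem t_up : S_up := by
  intro b hb p hp η hη
  have hb1 : 1 < b := by omega
  have hbR : (1 : ℝ) < b := by exact_mod_cast hb1
  have hb0 : (0 : ℝ) < b := by linarith
  have hlogb : 0 < Real.log b := Real.log_pos hbR
  have hp1 : ∀ d, p d ≤ 1 := by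
    intro d
    rw [← hp.2]
    exact Finset.single_le_sum (fun i _ => hp.1 i) (Finset.mem_univ d)
  set η₂ : ℝ := η * Real.log b / 2 with hη₂
  have hη₂0 : 0 < η₂ := by positivity
  set τ : ℝ := 1 - Real.exp (-(η₂ / 2)) with hτ
  have hτ1 : 1 - τ = Real.exp (-(η₂ / 2)) := by rw [hτ]; ring
  have h1τ : 0 < 1 - τ := by rw [hτ1]; exact Real.exp_pos _
  have hτ0 : 0 < τ := by
    have : Real.exp (-(η₂ / 2)) < 1 := by
      rw [Real.exp_lt_one_iff]
      linarith
    rw [hτ]; linarith
  set p' : Fin b → ℝ := fun d => (1 - τ) * p d + τ / b with hp'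
  have hp'0 : ∀ d, 0 < p' d := fun d => by
    have h1 := hp.1 d
    have h2 : 0 < τ / b := by positivity
    show 0 < (1 - τ) * p d + τ / b
    nlinarith
  have hp's : ∑ d, p' d = 1 := by
    rw [hp', Finset.sum_add_distrib, ← Finset.mul_sum, hp.2, Finset.sum_const, Finset.card_univ,
      Fintype.card_fin, nsmul_eq_mul]
    field_simp
    ring
  have hp'1 : ∀ d, p' d ≤ 1 := by
    intro d
    rw [← hp's]
    exact Finset.single_le_sum (fun i _ => (hp'0 i).le) (Finset.mem_univ d)
  set γ : Fin b → ℝ := fun d => -Real.log (p' d) with hγ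
  have hγ0 : ∀ d, 0 ≤ γ d := fun d => by
    have := Real.log_nonpos (hp'0 d).le (hp'1 d)
    show 0 ≤ -Real.log (p' d)
    linarith
  set H : ℝ := ∑ d, Real.negMulLog (p d) with hH
  have hH0 : 0 ≤ H := Finset.sum_nonneg fun d _ => Real.negMulLog_nonneg (hp.1 d) (hp1 d)
  have hpg : ∑ d, p d * γ d ≤ H + η₂ / 2 := by
    have h1 : ∀ d, p d * γ d ≤ Real.negMulLog (p d) + p d * (η₂ / 2) := by
      intro d
      rcases eq_or_lt_of_le (hp.1 d) with h0 | h0
      · rw [← h0]; simp
      · have h2 : Real.log ((1 - τ) * p d) ≤ Real.log (p' d) := by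
          apply Real.log_le_log (mul_pos h1τ h0)
          have : 0 < τ / b := by positivity
          show (1 - τ) * p d ≤ (1 - τ) * p d + τ / b
          linarith
        rw [Real.log_mul h1τ.ne' h0.ne', hτ1, Real.log_exp] at h2
        have h3 : γ d ≤ η₂ / 2 - Real.log (p d) := by
          show -Real.log (p' d) ≤ _
          linarith
        have h4 := mul_le_mul_of_nonneg_left h3 h0.le
        rw [Real.negMulLog]
        linarith
    refine (Finset.sum_le_sum fun d _ => h1 d).trans ?_
    rw [Finset.sum_add_distrib, ← Finset.sum_mul, hp.2, one_mul]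
  set A : ℝ := ∑ d, γ d with hA
  have hA0 : 0 ≤ A := Finset.sum_nonneg fun d _ => hγ0 d
  set ε : ℝ := (η₂ / 2) / (A + 1) with hε
  have hε0 : 0 < ε := by positivity
  have hεA : ε * A ≤ η₂ / 2 := by
    rw [hε, div_mul_eq_mul_div, div_le_iff₀ (by linarith)]
    nlinarith
  have hmain : ∑ d, (p d + ε) * γ d ≤ H + η₂ := by
    have h1 : ∑ d, (p d + ε) * γ d = ∑ d, p d * γ d + ε * A := by
      rw [hA, Finset.mul_sum, ← Finset.sum_add_distrib]
      exact Finset.sum_congr rfl fun d _ => by ring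
    rw [h1]
    linarith
  set g : ℕ → ℝ := fun d => if h : d < b then γ ⟨d, h⟩ else 0 with hg
  have hgs : ∑ d ∈ range b, Real.exp (-g d) = 1 := by
    rw [Finset.sum_range, ← hp's]
    refine Finset.sum_congr rfl fun d _ => ?_
    show Real.exp (-(if h : (d : ℕ) < b then γ ⟨d, h⟩ else 0)) = p' d
    rw [dif_pos d.2]
    show Real.exp (-(-Real.log (p' d))) = p' d
    rw [neg_neg, Real.exp_log (hp'0 d)]
  set K : ℝ := H + η₂ with hK
  have hK0 : 0 ≤ K := by linarith
  refine ⟨ε, hε0, (2 / (η * Real.log b) + 2) * Real.exp K, by positivity, ?_⟩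
  intro X hX
  have hX0 : 0 < X := by linarith
  set n : ℕ := ⌊X⌋₊ with hn
  have hn1 : 1 ≤ n := by
    rw [hn, Nat.one_le_floor_iff]
    exact hX
  set N : ℕ := Nat.log b n + 1 with hN
  have hnN : n < b ^ N := Nat.lt_pow_succ_log_self hb1 n
  set u : ℝ := Real.log X / Real.log b with hu
  have hlogX : 0 ≤ Real.log X := Real.log_nonneg hX
  have hu0 : 0 ≤ u := by positivity
  have hNu : (N : ℝ) ≤ u + 1 := by
    have h1 : b ^ Nat.log b n ≤ n := Nat.pow_log_le_self b (by omega)
    have h2 : (b : ℝ) ^ Nat.log b n ≤ X := by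
      have h3 : ((b ^ Nat.log b n : ℕ) : ℝ) ≤ n := by exact_mod_cast h1
      have h4 : (n : ℝ) ≤ X := Nat.floor_le hX0.le
      push_cast at h3
      linarith
    have h5 : (Nat.log b n : ℝ) * Real.log b ≤ Real.log X := by
      rw [← Real.log_pow]
      exact Real.log_le_log (by positivity) h2
    have h6 : (Nat.log b n : ℝ) ≤ u := by
      rw [hu, le_div_iff₀ hlogb]
      exact h5
    rw [hN]
    push_cast
    linarith
  -- the set
  set S : Set ℕ := {m : ℕ | (0 < m ∧ ∀ d : Fin b, |fr b m d - p d| ≤ ε) ∧ (m : ℝ) ≤ X} with hS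
  have hSsub : S ⊆ (range (b ^ N) : Finset ℕ) := by
    rintro m ⟨-, hm⟩
    rw [Finset.mem_coe, Finset.mem_range]
    exact lt_of_le_of_lt (Nat.le_floor hm) hnN
  have hSfin : S.Finite := (Finset.finite_toSet _).subset hSsub
  set B : Finset ℕ := hSfin.toFinset with hB
  have hBS : S.ncard = B.card := Set.ncard_eq_toFinset_card S hSfin
  have hBsub : B ⊆ range (b ^ N) := by
    intro m hm
    rw [hB, Set.Finite.mem_toFinset] at hm
    exact hSsub hm
  have hlow : ∀ m ∈ B, Real.exp (-(N * K)) ≤ T b g m := by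
    intro m hm
    rw [hB, Set.Finite.mem_toFinset] at hm
    obtain ⟨⟨hm0, hfr⟩, hmX⟩ := hm
    unfold T
    rw [Real.exp_le_exp, neg_le_neg_iff,
      sum_count b g _ fun x hx => Nat.digits_lt_base hb1 hx]
    have hLN : (Nat.digits b m).length ≤ N := by
      rw [Nat.digits_length_le_iff hb1]
      exact lt_of_le_of_lt (Nat.le_floor hmX) hnN
    have hL0 : 0 < (Nat.digits b m).length := by
      rw [List.length_pos_iff]
      exact Nat.digits_ne_nil_iff_ne_zero.2 hm0.ne'
    have hLR : (0 : ℝ) < ((Nat.digits b m).length : ℝ) := by exact_mod_cast hL0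
    have h1 : ∀ d : Fin b, ((Nat.digits b m).count (d : ℕ) : ℝ) ≤
        ((Nat.digits b m).length : ℝ) * (p d + ε) := by
      intro d
      have h2 := (abs_le.1 (hfr d)).2
      unfold fr at h2
      have h3 : ((Nat.digits b m).count (d : ℕ) : ℝ) / ((Nat.digits b m).length : ℝ) ≤ p d + ε := by
        linarith
      rw [div_le_iff₀ hLR] at h3
      linarith
    rw [Finset.sum_range]
    have h4 : ∀ d : Fin b, ((Nat.digits b m).count (d : ℕ) : ℝ) * g d ≤
        ((Nat.digits b m).length : ℝ) * ((p d + ε) * γ d) := by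
      intro d
      have h5 : g d = γ d := by
        show (if h : (d : ℕ) < b then γ ⟨d, h⟩ else 0) = γ d
        rw [dif_pos d.2]
      rw [h5]
      have := mul_le_mul_of_nonneg_right (h1 d) (hγ0 d)
      linarith
    refine (Finset.sum_le_sum fun d _ => h4 d).trans ?_
    rw [← Finset.mul_sum]
    have hLN' : ((Nat.digits b m).length : ℝ) ≤ N := by exact_mod_cast hLN
    calc ((Nat.digits b m).length : ℝ) * ∑ d, (p d + ε) * γ d ≤
        ((Nat.digits b m).length : ℝ) * K := mul_le_mul_of_nonneg_left hmain hLR.le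
      _ ≤ N * K := mul_le_mul_of_nonneg_right hLN' hK0
  have hcount : (B.card : ℝ) * Real.exp (-(N * K)) ≤ N + 1 := by
    calc (B.card : ℝ) * Real.exp (-(N * K)) = ∑ _m ∈ B, Real.exp (-(N * K)) := by
          rw [Finset.sum_const, nsmul_eq_mul]
      _ ≤ ∑ m ∈ B, T b g m := Finset.sum_le_sum hlow
      _ ≤ ∑ m ∈ range (b ^ N), T b g m :=
          Finset.sum_le_sum_of_subset_of_nonneg hBsub fun m _ _ => (T_pos b g m).le
      _ ≤ N + 1 := sum_T hb1 g hgs N
  have hcount2 : (B.card : ℝ) ≤ (N + 1) * Real.exp (N * K) := by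
    rw [Real.exp_neg, ← div_eq_mul_inv, div_le_iff₀ (Real.exp_pos _)] at hcount
    exact hcount
  rw [hBS]
  refine hcount2.trans ?_
  have h1 : Real.exp (N * K) ≤ Real.exp K * X ^ (ent p + η / 2) := by
    have h2 : X ^ (ent p + η / 2) = Real.exp (u * K) := by
      rw [Real.rpow_def_of_pos hX0]
      congr 1
      rw [hu, hK, hη₂, ent, ← hH]
      field_simp
    rw [h2, ← Real.exp_add, Real.exp_le_exp]
    nlinarith
  have h3 : ((N : ℝ) + 1) ≤ (2 / (η * Real.log b) + 2) * X ^ (η / 2) := by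
    have h4 : Real.log X ≤ X ^ (η / 2) / (η / 2) := Real.log_le_rpow_div hX0.le (by positivity)
    have h5 : 1 ≤ X ^ (η / 2) := Real.one_le_rpow hX (by positivity)
    have h6 : u ≤ 2 / (η * Real.log b) * X ^ (η / 2) := by
      rw [hu, div_le_iff₀ hlogb]
      refine h4.trans (le_of_eq ?_)
      field_simp
    nlinarith
  have h7 : X ^ (ent p + η) = X ^ (η / 2) * X ^ (ent p + η / 2) := by
    rw [← Real.rpow_add hX0]
    congr 1
    ring
  rw [h7]
  calc ((N : ℝ) + 1) * Real.exp (N * K) ≤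
      ((2 / (η * Real.log b) + 2) * X ^ (η / 2)) * (Real.exp K * X ^ (ent p + η / 2)) :=
        mul_le_mul h3 h1 (Real.exp_pos _).le (by positivity)
    _ = _ := by ring

end Pool.Agent.R485.MF
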